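import Mathlib

/-!
A set which is not null for the `r`-dimensional Hausdorff measure has a point whose dyadic codes
avoid any small family of codes from some point on.
-/

namespace Pool.Agent.Lib.MP_eebbd0_lc

open Finset MeasureTheory Filter Topology
open scoped ENNReal

/-- The level `l` dyadic code of a point. -/
noncomputable def code {n : ℕ} (l : ℕ) (x : Fin n → ℝ) : Fin n → ℤ := fun k => ⌊2 ^ l * x k⌋

theorem code_mono {n : ℕ} {l l' : ℕ} (h : l ≤ l') {x y : Fin n → ℝ}
    (hxy : code l' x = code l' y) : code l x = code l y := by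
  obtain ⟨d, rfl⟩ := Nat.exists_eq_add_of_le h
  funext k
  have key : ∀ z : ℝ, ⌊(2 : ℝ) ^ l * z⌋ = ⌊(2 : ℝ) ^ (l + d) * z⌋ / ((2 ^ d : ℕ) : ℤ) := by
    intro z
    rw [← Int.floor_div_natCast]
    congr 1
    push_cast
    rw [pow_add]
    field_simp
  have := congrFun hxy k
  simp only [code] at this ⊢
  rw [key, key (y k), this]

theorem dist_le_of_code {n : ℕ} {l : ℕ} {x y : Fin n → ℝ} (hxy : code l x = code l y) :
    dist x y ≤ (1 / 2) ^ l := by
  rw [dist_pi_le_iff (by positivity)]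
  intro k
  have h := congrFun hxy k
  simp only [code] at h
  have h1 := Int.abs_sub_lt_one_of_floor_eq_floor h
  rw [← mul_sub, abs_mul, abs_of_pos (by positivity : (0 : ℝ) < 2 ^ l)] at h1
  rw [Real.dist_eq, one_div, inv_pow, ← one_div, le_div_iff₀ (by positivity)]
  linarith

theorem ediam_code_le {n : ℕ} (l : ℕ) (c : Fin n → ℤ) :
    Metric.ediam {x : Fin n → ℝ | code l x = c} ≤ ENNReal.ofReal ((1 / 2) ^ l) := by
  apply Metric.ediam_le
  intro x hx y hy
  rw [edist_dist]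
  exact ENNReal.ofReal_le_ofReal (dist_le_of_code (hx.trans hy.symm))

theorem null_of_frequently {n : ℕ} {r : ℝ} (hr : 0 < r) (a : ℕ → ℕ) (ha : ∀ j, j ≤ a j)
    (φ : ℕ → Finset (Fin n → ℤ))
    (hφ : Summable fun j => ((φ j).card : ℝ) * ((1 / 2 : ℝ) ^ a j) ^ r) :
    μH[r] {x : Fin n → ℝ | ∃ᶠ j in atTop, code (a j) x ∈ φ j} = 0 := by
  set f : ℕ → ℝ≥0∞ := fun j => ENNReal.ofReal (((φ j).card : ℝ) * ((1 / 2 : ℝ) ^ a j) ^ r)
    with hf
  have hfin : ∑' j, f j ≠ ∞ := hφ.tsum_ofReal_ne_top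
  have htail := ENNReal.tendsto_sum_nat_add f hfin
  have hle := Measure.hausdorffMeasure_le_liminf_tsum (β := ℕ)
    (ι := fun J => Σ j : ℕ, φ (j + J)) r
    {x : Fin n → ℝ | ∃ᶠ j in atTop, code (a j) x ∈ φ j} (l := atTop)
    (fun J => ENNReal.ofReal ((1 / 2) ^ J))
    (by
      have := ENNReal.tendsto_ofReal (tendsto_pow_atTop_nhds_zero_of_lt_one
        (by norm_num : (0 : ℝ) ≤ 1 / 2) (by norm_num))
      simpa using this)
    (fun J i => {x : Fin n → ℝ | code (a (i.1 + J)) x = i.2.1})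
    (Eventually.of_forall fun J i => (ediam_code_le _ _).trans (by
      apply ENNReal.ofReal_le_ofReal
      apply pow_le_pow_of_le_one (by norm_num) (by norm_num)
      have := ha (i.1 + J)
      omega))
    (Eventually.of_forall fun J x hx => by
      obtain ⟨j, hj, hJ⟩ := (Filter.frequently_atTop.1 hx) J
      obtain ⟨d, rfl⟩ := Nat.exists_eq_add_of_le' hj
      exact Set.mem_iUnion.2 ⟨⟨d, ⟨code (a (d + J)) x, hJ⟩⟩, rfl⟩)
  refine le_antisymm (hle.trans ?_) zero_le
  have hb : ∀ J, ∑' i : (Σ j : ℕ, φ (j + J)),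
      Metric.ediam {x : Fin n → ℝ | code (a (i.1 + J)) x = i.2.1} ^ r ≤ ∑' k, f (k + J) := by
    intro J
    rw [ENNReal.tsum_sigma']
    apply ENNReal.tsum_le_tsum
    intro k
    calc ∑' c : φ (k + J), Metric.ediam {x : Fin n → ℝ | code (a (k + J)) x = c.1} ^ r
        ≤ ∑' c : φ (k + J), ENNReal.ofReal (((1 / 2 : ℝ) ^ a (k + J)) ^ r) := by
          apply ENNReal.tsum_le_tsum
          intro c
          rw [← ENNReal.ofReal_rpow_of_nonneg (by positivity) hr.le]
          exact ENNReal.rpow_le_rpow (ediam_code_le _ _) hr.le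
      _ = f (k + J) := by
          rw [tsum_fintype, sum_const, card_univ, Fintype.card_coe, hf]
          simp only
          rw [ENNReal.ofReal_mul (by positivity), ENNReal.ofReal_natCast, nsmul_eq_mul]
  calc liminf (fun J => ∑' i : (Σ j : ℕ, φ (j + J)),
      Metric.ediam {x : Fin n → ℝ | code (a (i.1 + J)) x = i.2.1} ^ r) atTop
      ≤ liminf (fun J => ∑' k, f (k + J)) atTop :=
        liminf_le_liminf (Eventually.of_forall hb)
    _ = 0 := htail.liminf_eq

theorem exists_avoid {n : ℕ} {r : ℝ} (hr : 0 < r) {X : Set (Fin n → ℝ)} (hX : μH[r] X ≠ 0)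
    (a : ℕ → ℕ) (ha : ∀ j, j ≤ a j) (φ : ℕ → Finset (Fin n → ℤ))
    (hφ : Summable fun j => ((φ j).card : ℝ) * ((1 / 2 : ℝ) ^ a j) ^ r) :
    ∃ x ∈ X, ∀ᶠ j in atTop, code (a j) x ∉ φ j := by
  by_contra hcon
  apply hX
  refine measure_mono_null ?_ (null_of_frequently hr a ha φ hφ)
  intro x hx
  by_contra h
  apply hcon
  refine ⟨x, hx, ?_⟩
  simpa [Filter.Frequently] using h

/-- Some unit cube carries a non-null part. -/
theorem exists_unit_cube {n : ℕ} {r : ℝ} {X : Set (Fin n → ℝ)} (hX : μH[r] X ≠ 0) :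
    ∃ c : Fin n → ℤ, μH[r] (X ∩ {x | code 0 x = c}) ≠ 0 := by
  by_contra hcon
  push Not at hcon
  apply hX
  have : X = ⋃ c : Fin n → ℤ, X ∩ {x | code 0 x = c} := by
    ext x
    simp
  rw [this]
  exact measure_iUnion_null hcon

/-- The codes at level `l` inside the unit cube with code `c`. -/
noncomputable def box {n : ℕ} (c : Fin n → ℤ) (l : ℕ) : Finset (Fin n → ℤ) :=
  Fintype.piFinset fun k => Finset.Ico (2 ^ l * c k) (2 ^ l * c k + 2 ^ l)

theorem card_box {n : ℕ} (c : Fin n → ℤ) (l : ℕ) : (box c l).card = 2 ^ (n * l) := by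
  rw [box, Fintype.card_piFinset]
  have : ∀ k, (Finset.Ico (2 ^ l * c k) (2 ^ l * c k + 2 ^ l)).card = 2 ^ l := by
    intro k
    rw [Int.card_Ico, add_sub_cancel_left]
    have : (2 : ℤ) ^ l = ((2 ^ l : ℕ) : ℤ) := by push_cast; rfl
    rw [this, Int.toNat_natCast]
  simp only [this, prod_const, card_univ, Fintype.card_fin]
  rw [← pow_mul, mul_comm]

theorem code_mem_box {n : ℕ} {c : Fin n → ℤ} {x : Fin n → ℝ} (hx : code 0 x = c) (l : ℕ) :
    code l x ∈ box c l := by
  rw [box, Fintype.mem_piFinset]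
  intro k
  have h := congrFun hx k
  simp only [code, pow_zero, one_mul] at h
  have h1 := Int.floor_le (x k)
  have h2 := Int.lt_floor_add_one (x k)
  rw [h] at h1 h2
  have hp : (0 : ℝ) < 2 ^ l := by positivity
  rw [Finset.mem_Ico, code, Int.le_floor, Int.floor_lt]
  push_cast
  constructor
  · exact mul_le_mul_of_nonneg_left h1 hp.le
  · nlinarith

end Pool.Agent.Lib.MP_eebbd0_lc
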