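import Pool.Agent.Lib.MP_eebbd0_lc.Count

/-!
A condenser with side information for seeds of small deficiency.
-/

namespace Pool.Agent.Lib.MP_eebbd0_lc.Band

open Finset

theorem bcond_hits {I H : Type*} [Fintype I] [DecidableEq I] [Fintype H] [DecidableEq H]
    (Bad : I → Finset H) (θ : ℝ) (hθ : 0 ≤ θ)
    (hB : ∀ i, ((Bad i).card : ℝ) ≤ θ * Fintype.card H) (K : ℕ) :
    (((univ : Finset (I → H)).filter
        fun f => K ≤ ((univ : Finset I).filter fun i => f i ∈ Bad i).card).card : ℝ)
      ≤ ((Fintype.card I).choose K * θ ^ K) * (Fintype.card H : ℝ) ^ (Fintype.card I) := by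
  classical
  have hsub : ((univ : Finset (I → H)).filter
        fun f => K ≤ ((univ : Finset I).filter fun i => f i ∈ Bad i).card) ⊆
      (powersetCard K (univ : Finset I)).biUnion
        fun J => Fintype.piFinset fun i => if i ∈ J then Bad i else univ := by
    intro f hf
    rw [mem_filter] at hf
    obtain ⟨J, hJ, hJc⟩ := exists_subset_card_eq hf.2
    rw [mem_biUnion]
    refine ⟨J, mem_powersetCard.2 ⟨subset_univ _, hJc⟩, ?_⟩
    rw [Fintype.mem_piFinset]
    intro i
    split_ifs with hi
    · exact (mem_filter.1 (hJ hi)).2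
    · exact mem_univ _
  have h1 := card_le_card hsub
  have h2 := h1.trans card_biUnion_le
  have h3 : ∀ J ∈ powersetCard K (univ : Finset I),
      ((Fintype.piFinset fun i => if i ∈ J then Bad i else univ).card : ℝ)
        ≤ θ ^ K * (Fintype.card H : ℝ) ^ (Fintype.card I) := by
    intro J hJ
    have hJc := (mem_powersetCard.1 hJ).2
    rw [Fintype.card_piFinset]
    push_cast
    calc ∏ i, ((if i ∈ J then Bad i else univ).card : ℝ)
        ≤ ∏ i, ((if i ∈ J then θ else 1) * (Fintype.card H : ℝ)) := by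
          apply prod_le_prod
          · intro i _
            positivity
          · intro i _
            split_ifs with hi
            · exact hB i
            · simp
      _ = θ ^ K * (Fintype.card H : ℝ) ^ (Fintype.card I) := by
          rw [prod_mul_distrib, prod_const, card_univ, prod_ite_mem, univ_inter, prod_const, hJc]
  have h4 : (((univ : Finset (I → H)).filter
        fun f => K ≤ ((univ : Finset I).filter fun i => f i ∈ Bad i).card).card : ℝ)
      ≤ ∑ J ∈ powersetCard K (univ : Finset I),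
        ((Fintype.piFinset fun i => if i ∈ J then Bad i else univ).card : ℝ) := by
    exact_mod_cast h2
  refine h4.trans ((sum_le_sum h3).trans ?_)
  rw [sum_const, card_powersetCard, card_univ, nsmul_eq_mul, mul_assoc]

theorem bcond_choose (N Λ K : ℕ) (hΛ : 0 < Λ) (h1 : 6 * N ≤ K * Λ) :
    (N.choose K : ℝ) * ((1 : ℝ) / Λ) ^ K ≤ (1 / 2) ^ K := by
  have hΛ' : (0 : ℝ) < Λ := by exact_mod_cast hΛ
  have h2 : (N.choose K : ℝ) ≤ (N : ℝ) ^ K / K.factorial := Nat.choose_le_pow_div K N
  have h3 : (K : ℝ) ^ K / K.factorial ≤ Real.exp K := Real.pow_div_factorial_le_exp _ (by positivity) K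
  have h4 : Real.exp K ≤ 3 ^ K := by
    rw [← Real.exp_one_pow]
    exact pow_le_pow_left₀ (Real.exp_pos 1).le (by linarith [Real.exp_one_lt_d9]) K
  have h5 : (N : ℝ) * (1 / Λ) ≤ K * (1 / 6) := by
    have : ((6 * N : ℕ) : ℝ) ≤ ((K * Λ : ℕ) : ℝ) := by exact_mod_cast h1
    push_cast at this
    rw [mul_one_div, mul_one_div, div_le_div_iff₀ hΛ' (by norm_num)]
    linarith
  calc (N.choose K : ℝ) * ((1 : ℝ) / Λ) ^ K
      ≤ (N : ℝ) ^ K / K.factorial * ((1 : ℝ) / Λ) ^ K :=
        mul_le_mul_of_nonneg_right h2 (by positivity)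
    _ = ((N : ℝ) * (1 / Λ)) ^ K / K.factorial := by rw [mul_pow]; ring
    _ ≤ ((K : ℝ) * (1 / 6)) ^ K / K.factorial :=
        div_le_div_of_nonneg_right (pow_le_pow_left₀ (by positivity) h5 K) (by positivity)
    _ = (K : ℝ) ^ K / K.factorial * (1 / 6) ^ K := by rw [mul_pow]; ring
    _ ≤ 3 ^ K * (1 / 6) ^ K := mul_le_mul_of_nonneg_right (h3.trans h4) (by positivity)
    _ = (1 / 2) ^ K := by rw [← mul_pow]; norm_num

theorem exists_cond {A B D P : Type} [Fintype A] [Fintype B] [Fintype D] [Fintype P]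
    [DecidableEq D] [Nonempty D] [Nonempty P] (π : A → B → P) (Λ K : ℕ) (hΛ : 0 < Λ)
    (h1 : 6 * Fintype.card B ≤ K * Λ) (h2 : 4 * Fintype.card A ≤ 2 ^ K) :
    ∃ g : A → B → D, ∀ S : P → Finset D, (∀ p, (S p).card * Λ ≤ Fintype.card D) →
      ((univ : Finset A).filter fun a =>
        K ≤ ((univ : Finset B).filter fun b => g a b ∈ S (π a b)).card).card
          < Fintype.card D * Fintype.card P := by
  classical
  have hD : 0 < Fintype.card D := Fintype.card_pos
  have hP : 0 < Fintype.card P := Fintype.card_pos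
  have hΛ' : (0 : ℝ) < Λ := by exact_mod_cast hΛ
  set M := Fintype.card D * Fintype.card P with hM
  have hM0 : 0 < M := Nat.mul_pos hD hP
  by_contra hcon
  push Not at hcon
  have hDr : (0 : ℝ) < Fintype.card D := by exact_mod_cast hD
  set T : ℝ := (Fintype.card (B → D) : ℝ) with hT
  have hTpos : 0 < T := by
    rw [hT, Fintype.card_fun]
    push_cast
    positivity
  -- the admissible predictors
  set 𝒮 : Finset (P → Finset D) := univ.filter fun S => ∀ p, (S p).card * Λ ≤ Fintype.card D
    with h𝒮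
  have hS : (𝒮.card : ℝ) ≤ 2 ^ M := by
    have : 𝒮.card ≤ Fintype.card (P → Finset D) := card_le_univ _
    rw [Fintype.card_fun, Fintype.card_finset, ← pow_mul] at this
    exact_mod_cast this
  -- bad rows
  let Bad : (P → Finset D) → A → Finset (B → D) := fun S a =>
    univ.filter fun h => K ≤ ((univ : Finset B).filter fun b => h b ∈ S (π a b)).card
  have hBad : ∀ S ∈ 𝒮, ∀ a, ((Bad S a).card : ℝ) ≤ (1 / 2) ^ K * Fintype.card (B → D) := by
    intro S hS a
    have hS' := (mem_filter.1 hS).2
    have := bcond_hits (fun b => S (π a b)) ((1 : ℝ) / Λ) (by positivity)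
      (fun b => by
        rw [one_div_mul_eq_div, le_div_iff₀ hΛ']
        exact_mod_cast hS' _) K
    refine this.trans ?_
    rw [Fintype.card_fun]
    push_cast
    exact mul_le_mul_of_nonneg_right (bcond_choose _ Λ K hΛ h1) (by positivity)
  have hG : ∀ S ∈ 𝒮, (((univ : Finset (A → B → D)).filter
        fun g => M ≤ ((univ : Finset A).filter fun a => g a ∈ Bad S a).card).card : ℝ)
      ≤ (1 / 4) ^ M * T ^ (Fintype.card A) := by
    intro S hS
    refine (card_hits_le (Bad S) ((1 / 2) ^ K) (by positivity) (hBad S hS) M).trans ?_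
    apply mul_le_mul_of_nonneg_right _ (by positivity)
    apply pow_le_pow_left₀ (by positivity)
    have : ((4 * Fintype.card A : ℕ) : ℝ) ≤ ((2 ^ K : ℕ) : ℝ) := by exact_mod_cast h2
    push_cast at this
    rw [one_div, inv_pow, ← div_eq_mul_inv, div_le_div_iff₀ (by positivity) (by norm_num)]
    linarith
  have hcover : (univ : Finset (A → B → D)) ⊆ 𝒮.biUnion fun S =>
      (univ : Finset (A → B → D)).filter
        fun g => M ≤ ((univ : Finset A).filter fun a => g a ∈ Bad S a).card := by
    intro g _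
    obtain ⟨S, hS, hSg⟩ := hcon g
    rw [mem_biUnion]
    refine ⟨S, mem_filter.2 ⟨mem_univ _, hS⟩, mem_filter.2 ⟨mem_univ _, ?_⟩⟩
    refine hSg.trans (le_of_eq ?_)
    congr 1
    ext a
    simp [Bad]
  have h5 := (card_le_card hcover).trans card_biUnion_le
  have h6 : ((univ : Finset (A → B → D)).card : ℝ) ≤ ∑ S ∈ 𝒮, (((univ : Finset (A → B → D)).filter
        fun g => M ≤ ((univ : Finset A).filter fun a => g a ∈ Bad S a).card).card : ℝ) := by
    exact_mod_cast h5
  have h7 := h6.trans (sum_le_sum hG)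
  rw [sum_const, nsmul_eq_mul, card_univ, Fintype.card_fun (α := A)] at h7
  push_cast at h7
  have h8 : (𝒮.card : ℝ) * ((1 / 4) ^ M * T ^ (Fintype.card A))
      ≤ (1 / 2) ^ M * T ^ (Fintype.card A) := by
    rw [← mul_assoc]
    apply mul_le_mul_of_nonneg_right _ (by positivity)
    calc (𝒮.card : ℝ) * (1 / 4) ^ M ≤ 2 ^ M * (1 / 4) ^ M :=
          mul_le_mul_of_nonneg_right hS (by positivity)
      _ = (1 / 2) ^ M := by rw [← mul_pow]; norm_num
  have h9 : ((1 : ℝ) / 2) ^ M < 1 := pow_lt_one₀ (by norm_num) (by norm_num) hM0.ne'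
  have h10 : 0 < T ^ (Fintype.card A) := by positivity
  have h11 := h7.trans h8
  rw [← hT] at h11
  nlinarith

end Pool.Agent.Lib.MP_eebbd0_lc.Band
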