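import Mathlib

/-!
Weighted null sets of digit sequences and two-source transfer maps.
-/

namespace Pool.Agent.Lib.MP_eebbd0_lc.Band

open Filter Topology Cardinal
open scoped ENNReal

/-- `Z` can be covered by long cylinders of small total weight, a cylinder of length `l` having
weight `φ l`. -/
def Null {A : Type} (φ : ℕ → ℝ≥0∞) (Z : Set (ℕ → A)) : Prop :=
  ∀ ε : ℝ≥0∞, 0 < ε → ∀ N : ℕ, ∃ (ι : Type) (_ : Countable ι) (L : ι → ℕ) (s : ι → ℕ → A),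
    (∀ i, N ≤ L i) ∧ ∑' i, φ (L i) ≤ ε ∧ ∀ z ∈ Z, ∃ i, ∀ k < L i, z k = s i k

/-- The weight `2 ^ (d l - n l)`. -/
noncomputable def wt (n : ℕ) (d : ℕ → ℕ) (l : ℕ) : ℝ≥0∞ := 2 ^ d l * 2⁻¹ ^ (n * l)

/-- Preimages of `γ`-null sets under `F` are null in the iterated sense. -/
def Fub {A D : Type} (φ γ : ℕ → ℝ≥0∞) (F : (ℕ → A) → (ℕ → A) → ℕ → D) : Prop :=
  ∀ Z, Null γ Z → ∃ X₀, Null φ X₀ ∧ ∀ x, x ∉ X₀ → Null φ {y | F x y ∈ Z}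

/-- The weight decays fast enough for the first condensing step. -/
def Low (φ : ℕ → ℝ≥0∞) : Prop :=
  ∀ C : ℕ, ∃ e : ℕ → ℕ, ∀ᶠ j in atTop,
    ((C * (e j + j + 1) : ℕ) : ℝ≥0∞) * φ (2 ^ j) ≤ 2⁻¹ ^ j ∧
      ∀ a, e j ≤ a → φ a ≤ 2⁻¹ ^ (C * 2 ^ j)

/-- There is a non-null set of size at most `κ`. -/
def NonAt (A : Type) (φ : ℕ → ℝ≥0∞) (κ : Cardinal.{0}) : Prop :=
  ∃ Z : Set (ℕ → A), ¬Null φ Z ∧ #Z ≤ κ

/-- The space is covered by at most `κ` null sets. -/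
def CovAt (A : Type) (φ : ℕ → ℝ≥0∞) (κ : Cardinal.{0}) : Prop :=
  ∃ (ι : Type) (Z : ι → Set (ℕ → A)), #ι ≤ κ ∧ (∀ i, Null φ (Z i)) ∧ ∀ z, ∃ i, z ∈ Z i

/-- Transfer of small non-null sets forward and of small covers backward. -/
def Tr (A : Type) (φ : ℕ → ℝ≥0∞) (D : Type) (γ : ℕ → ℝ≥0∞) : Prop :=
  (∀ κ, ℵ₀ ≤ κ → NonAt A φ κ → NonAt D γ κ) ∧ ∀ κ, CovAt D γ κ → CovAt A φ κ

theorem Null.mono {A : Type} {φ : ℕ → ℝ≥0∞} {Z Z' : Set (ℕ → A)} (h : Null φ Z')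
    (hZ : Z ⊆ Z') : Null φ Z := by
  intro ε hε N
  obtain ⟨ι, hι, L, s, h1, h2, h3⟩ := h ε hε N
  exact ⟨ι, hι, L, s, h1, h2, fun z hz => h3 z (hZ hz)⟩

theorem Tr.trans {A B D : Type} {φ ψ γ : ℕ → ℝ≥0∞} (h₁ : Tr A φ B ψ) (h₂ : Tr B ψ D γ) :
    Tr A φ D γ :=
  ⟨fun κ hκ h => h₂.1 κ hκ (h₁.1 κ hκ h), fun κ h => h₁.2 κ (h₂.2 κ h)⟩

theorem Fub.tr {A D : Type} {φ γ : ℕ → ℝ≥0∞} {F : (ℕ → A) → (ℕ → A) → ℕ → D}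
    (h : Fub φ γ F) : Tr A φ D γ := by
  constructor
  · rintro κ hκ ⟨X, hX, hc⟩
    refine ⟨Set.range fun p : X × X => F p.1 p.2, fun h0 => ?_, ?_⟩
    · obtain ⟨X₀, h1, h2⟩ := h _ h0
      have h3 : ¬X ⊆ X₀ := fun hs => hX (h1.mono hs)
      obtain ⟨x, hx, hx0⟩ := Set.not_subset.1 h3
      exact hX ((h2 x hx0).mono fun y hy => ⟨(⟨x, hx⟩, ⟨y, hy⟩), rfl⟩)
    · refine mk_range_le.trans ?_
      rw [mk_prod, lift_id]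
      exact (mul_le_mul' hc hc).trans (mul_eq_self hκ).le
  · rintro κ ⟨ι, Z, hι, hZ, hcov⟩
    choose X₀ h1 h2 using fun i => h (Z i) (hZ i)
    by_cases hc : ∀ x, ∃ i, x ∈ X₀ i
    · exact ⟨ι, X₀, hι, h1, hc⟩
    · push Not at hc
      obtain ⟨x, hx⟩ := hc
      exact ⟨ι, fun i => {y | F x y ∈ Z i}, hι, fun i => h2 i x (hx i), fun y => hcov _⟩

end Pool.Agent.Lib.MP_eebbd0_lc.Band
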