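import Pool.Agent.Lib.MP_eebbd0_lc.BDefs
import Pool.Agent.Lib.MP_eebbd0_lc.Avoid

/-!
Binary digits pull weighted null sets back to null sets of a gauge measure.
-/

namespace Pool.Agent.Lib.MP_eebbd0_lc.Band

open Filter Topology MeasureTheory
open scoped ENNReal

/-- the binary digits of the coordinates -/
noncomputable def bdig_dig {p : ℕ} (x : EuclideanSpace ℝ (Fin p)) (k : ℕ) (i : Fin p) : Bool :=
  decide (⌊(2 : ℝ) ^ (k + 1) * x i⌋ % 2 = 1)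

lemma bdig_half (a : ℝ) : ⌊a⌋ = ⌊2 * a⌋ / 2 := by
  have h1 := Int.floor_le a
  have h2 := Int.lt_floor_add_one a
  have h3 : 2 * ⌊a⌋ ≤ ⌊2 * a⌋ := Int.le_floor.mpr (by push_cast; linarith)
  have h4 : ⌊2 * a⌋ < 2 * ⌊a⌋ + 2 := Int.floor_lt.mpr (by push_cast; linarith)
  omega

lemma bdig_floor {p : ℕ} {x y : EuclideanSpace ℝ (Fin p)} (i : Fin p) (h0 : ⌊x i⌋ = ⌊y i⌋) (L : ℕ)
    (h : ∀ k < L, bdig_dig x k = bdig_dig y k) : ⌊(2 : ℝ) ^ L * x i⌋ = ⌊(2 : ℝ) ^ L * y i⌋ := by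
  induction L with
  | zero => simpa using h0
  | succ L ih =>
    have h1 := ih fun k hk => h k (by omega)
    have h2 := congrFun (h L (by omega)) i
    simp only [bdig_dig, decide_eq_decide] at h2
    rw [bdig_half, bdig_half ((2 : ℝ) ^ L * y i), ← mul_assoc, ← mul_assoc, ← pow_succ'] at h1
    omega

lemma bdig_dist {p : ℕ} {x y : EuclideanSpace ℝ (Fin p)} (h0 : ∀ i, ⌊x i⌋ = ⌊y i⌋) (L : ℕ)
    (h : ∀ k < L, bdig_dig x k = bdig_dig y k) : dist x y ≤ p * (1 / 2) ^ L := by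
  have h1 : ∀ i, dist (x i) (y i) ≤ (1 / 2) ^ L := by
    intro i
    have h2 := Int.abs_sub_lt_one_of_floor_eq_floor (bdig_floor i (h0 i) L h)
    rw [← mul_sub, abs_mul, abs_of_pos (by positivity : (0 : ℝ) < 2 ^ L)] at h2
    rw [Real.dist_eq, one_div, inv_pow, ← one_div, le_div_iff₀ (by positivity)]
    linarith
  rw [EuclideanSpace.dist_eq]
  refine Real.sqrt_le_iff.mpr ⟨by positivity, ?_⟩
  have h3 : ∑ i, dist (x i) (y i) ^ 2 ≤ ∑ _i : Fin p, ((1 / 2 : ℝ) ^ L) ^ 2 :=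
    Finset.sum_le_sum fun i _ => pow_le_pow_left₀ dist_nonneg (h1 i) 2
  rw [Finset.sum_const, Finset.card_univ, Fintype.card_fin, nsmul_eq_mul] at h3
  have h4 : (p : ℝ) ≤ p ^ 2 := by exact_mod_cast Nat.le_self_pow two_ne_zero p
  rw [mul_pow]
  exact h3.trans (mul_le_mul_of_nonneg_right h4 (by positivity))

lemma bdig_ediam {p : ℕ} (c : Fin p → ℤ) (L : ℕ) (s : ℕ → Fin p → Bool) :
    Metric.ediam {x : EuclideanSpace ℝ (Fin p) | (∀ i, ⌊x i⌋ = c i) ∧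
      ∀ k < L, bdig_dig x k = s k} ≤ ENNReal.ofReal (p * (1 / 2) ^ L) := by
  refine Metric.ediam_le fun x hx y hy => ?_
  rw [edist_dist]
  exact ENNReal.ofReal_le_ofReal (bdig_dist (fun i => (hx.1 i).trans (hy.1 i).symm) L
    fun k hk => (hx.2 k hk).trans (hy.2 k hk).symm)

theorem exists_dig (p : ℕ) : ∃ dig : EuclideanSpace ℝ (Fin p) → ℕ → Fin p → Bool,
    ∀ (φ : ℕ → ℝ≥0∞) (f : ℝ≥0∞ → ℝ≥0∞), f 0 = 0 →
      (∀ᶠ l in atTop, ∀ t : ℝ, 0 < t → t ≤ p * (1 / 2) ^ l → f (ENNReal.ofReal t) ≤ φ l) →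
        ∀ Z, Null φ Z →
          (Measure.mkMetric f : Measure (EuclideanSpace ℝ (Fin p))) (dig ⁻¹' Z) = 0 := by
  refine ⟨bdig_dig, fun φ f hf hφ Z hZ => ?_⟩
  obtain ⟨N₀, hN₀⟩ := eventually_atTop.mp hφ
  have hsub : bdig_dig ⁻¹' Z ⊆ ⋃ c : Fin p → ℤ,
      {x : EuclideanSpace ℝ (Fin p) | (∀ i, ⌊x i⌋ = c i) ∧ bdig_dig x ∈ Z} :=
    fun x hx => Set.mem_iUnion.mpr ⟨fun i => ⌊x i⌋, fun _ => rfl, hx⟩
  refine measure_mono_null hsub (measure_iUnion_null fun c => ?_)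
  choose ι hι L s h1 h2 h3 using fun J : ℕ =>
    hZ (2⁻¹ ^ J) (ENNReal.pow_pos (by norm_num) J) (max J N₀)
  have hr : Tendsto (fun J : ℕ => ENNReal.ofReal (p * (1 / 2) ^ J)) atTop (𝓝 0) := by
    have h4 := (tendsto_pow_atTop_nhds_zero_of_lt_one (r := (1 / 2 : ℝ)) (by norm_num)
      (by norm_num)).const_mul (p : ℝ)
    simpa using ENNReal.tendsto_ofReal h4
  have key := Measure.mkMetric_le_liminf_tsum
    {x : EuclideanSpace ℝ (Fin p) | (∀ i, ⌊x i⌋ = c i) ∧ bdig_dig x ∈ Z} _ hr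
    (fun J (i : ι J) => {x : EuclideanSpace ℝ (Fin p) | (∀ i, ⌊x i⌋ = c i) ∧
      ∀ k < L J i, bdig_dig x k = s J i k})
    (Eventually.of_forall fun J i => (bdig_ediam c _ _).trans (ENNReal.ofReal_le_ofReal
      (mul_le_mul_of_nonneg_left (pow_le_pow_of_le_one (by norm_num) (by norm_num)
        ((le_max_left _ _).trans (h1 J i))) (Nat.cast_nonneg p))))
    (Eventually.of_forall fun J x hx => by
      obtain ⟨i, hi⟩ := h3 J _ hx.2
      exact Set.mem_iUnion.mpr ⟨i, hx.1, hi⟩) f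
  refine le_zero_iff.mp (key.trans ?_)
  have h5 : Tendsto (fun J : ℕ => (2⁻¹ : ℝ≥0∞) ^ J) atTop (𝓝 0) :=
    ENNReal.tendsto_pow_atTop_nhds_zero_of_lt_one (by norm_num)
  rw [← h5.liminf_eq]
  refine liminf_le_liminf (Eventually.of_forall fun J => le_trans
    (ENNReal.tsum_le_tsum fun i => ?_) (h2 J))
  have h6 := bdig_ediam c (L J i) (s J i)
  generalize Metric.ediam (_ : Set (EuclideanSpace ℝ (Fin p))) = e at h6 ⊢
  rcases eq_or_ne e 0 with rfl | he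
  · rw [hf]
    exact zero_le
  · have h7 : e ≠ ⊤ := ne_top_of_le_ne_top ENNReal.ofReal_ne_top h6
    rw [← ENNReal.ofReal_toReal h7]
    exact hN₀ _ ((le_max_right _ _).trans (h1 J i)) _ (ENNReal.toReal_pos he h7)
      (ENNReal.toReal_le_of_le_ofReal (by positivity) h6)

/-- Finite sets are null for a gauge that vanishes at zero. -/
theorem mkMetric_finite {p : ℕ} {f : ℝ≥0∞ → ℝ≥0∞} (hf : f 0 = 0)
    {X : Set (EuclideanSpace ℝ (Fin p))} (hX : X.Countable) :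
    (Measure.mkMetric f : Measure (EuclideanSpace ℝ (Fin p))) X = 0 := by
  rw [← Set.biUnion_of_singleton X]
  refine (measure_biUnion_null_iff hX).mpr fun x _ => le_zero_iff.mp ?_
  refine (Measure.mkMetric_le_liminf_tsum (l := (atTop : Filter ℕ)) {x} (fun _ => 0)
    tendsto_const_nhds (fun _ (_ : Unit) => {x}) (by simp) (by simp) f).trans ?_
  simp [hf]

end Pool.Agent.Lib.MP_eebbd0_lc.Band
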