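import Pool.Agent.Lib.MP_eebbd0_lc.BDefs

/-!
Borel-Cantelli covers, supermartingales and the maximal inequality.
-/

namespace Pool.Agent.Lib.MP_eebbd0_lc.Band

open Filter Topology
open scoped ENNReal

/-- The first `l` digits. -/
def pre {A : Type} (l : ℕ) (x : ℕ → A) : Fin l → A := fun i => x i

/-- Overwrite the digits at the places `M, …, M + m - 1`. -/
def splice {D : Type} (M : ℕ) (z : ℕ → D) {m : ℕ} (u : Fin m → D) : ℕ → D :=
  fun k => if h : M ≤ k ∧ k < M + m then u ⟨k - M, by omega⟩ else z k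

theorem null_frequently {A : Type} [Nonempty A] {φ : ℕ → ℝ≥0∞} (a : ℕ → ℕ)
    (ha : Tendsto a atTop atTop) (Bad : (j : ℕ) → Finset (Fin (a j) → A))
    (h : ∀ᶠ j in atTop, ((Bad j).card : ℝ≥0∞) * φ (a j) ≤ 2⁻¹ ^ j) :
    Null φ {x | ∃ᶠ j in atTop, pre (a j) x ∈ Bad j} := by
  intro ε hε N
  obtain ⟨n, hn⟩ := ENNReal.exists_inv_two_pow_lt hε.ne'
  obtain ⟨J, hJ⟩ := eventually_atTop.1
    (h.and ((ha.eventually_ge_atTop N).and (eventually_ge_atTop (n + 1))))
  refine ⟨Σ j : ℕ, Bad (j + J), inferInstance, fun i => a (i.1 + J),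
    fun i k => if h : k < a (i.1 + J) then i.2.1 ⟨k, h⟩ else Classical.arbitrary A,
    fun i => (hJ _ (Nat.le_add_left _ _)).2.1, ?_, fun z hz => ?_⟩
  · rw [ENNReal.tsum_sigma']
    calc _ ≤ ∑' j : ℕ, (2⁻¹ : ℝ≥0∞) ^ j * 2⁻¹ ^ (n + 1) := ENNReal.tsum_le_tsum fun j => by
          simp only [tsum_fintype, Finset.sum_const, Finset.card_univ, Fintype.card_coe,
            nsmul_eq_mul]
          rw [← pow_add]
          exact (hJ _ (Nat.le_add_left _ _)).1.trans (pow_le_pow_right_of_le_one'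
            (ENNReal.inv_le_one.2 one_le_two) (by have := (hJ J le_rfl).2.2; omega))
      _ = 2⁻¹ ^ n := by
          rw [ENNReal.tsum_mul_right, ENNReal.tsum_geometric, ENNReal.one_sub_inv_two, inv_inv,
            pow_succ', ← mul_assoc, ENNReal.mul_inv_cancel two_ne_zero ENNReal.ofNat_ne_top,
            one_mul]
      _ ≤ ε := hn.le
  · obtain ⟨j, hj, hz⟩ := frequently_atTop.1 hz J
    obtain ⟨j, rfl⟩ : ∃ i, j = i + J := ⟨j - J, by omega⟩
    exact ⟨⟨j, _, hz⟩, fun k hk => by simp only [dif_pos hk, pre]⟩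

theorem exists_gale {D : Type} [Fintype D] [Nonempty D] {γ : ℕ → ℝ≥0∞} {Z : Set (ℕ → D)}
    (hZ : Null γ Z) :
    ∃ d : ℕ → (ℕ → D) → ℝ≥0∞, (∀ l z, 1 ≤ d l z) ∧ (∀ l z, d l z ≠ ∞) ∧
      (∀ l z z', (∀ k < l, z k = z' k) → d l z = d l z') ∧
      (∀ l z, ∑ e : D, d (l + 1) (Function.update z l e) ≤ Fintype.card D * d l z) ∧
      ∀ z ∈ Z, ∀ C N : ℕ, ∃ l, N ≤ l ∧ C * ((Fintype.card D : ℝ≥0∞) ^ l * γ l) ≤ d l z := by
  classical
  choose ι _ L s h1 h2 h3 using fun m : ℕ =>
    hZ (2⁻¹ ^ m * 2⁻¹ ^ m) (ENNReal.mul_pos (by simp) (by simp)) m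
  let t : ℕ → (ℕ → D) → (Σ m, ι m) → ℝ≥0∞ := fun l z p =>
    if l ≤ L p.1 p.2 ∧ ∀ k < l, z k = s p.1 p.2 k then 2 ^ p.1 * γ (L p.1 p.2) else 0
  have hfin : ∀ l z, ∑' p, t l z p ≠ ∞ := fun l z => by
    refine ne_top_of_le_ne_top (b := ∑' m : ℕ, (2⁻¹ : ℝ≥0∞) ^ m) (by simp) ?_
    rw [ENNReal.tsum_sigma']
    refine ENNReal.tsum_le_tsum fun m => ?_
    calc _ ≤ ∑' i, 2 ^ m * γ (L m i) := ENNReal.tsum_le_tsum fun i => by
          simp only [t]
          split_ifs
          exacts [le_rfl, zero_le]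
      _ ≤ 2 ^ m * (2⁻¹ ^ m * 2⁻¹ ^ m) := by rw [ENNReal.tsum_mul_left]; gcongr; exact h2 m
      _ = _ := by
          rw [← mul_assoc, ← mul_pow, ENNReal.mul_inv_cancel two_ne_zero ENNReal.ofNat_ne_top,
            one_pow, one_mul]
  have hsup : ∀ l z, ∑ e : D, ∑' p, t (l + 1) (Function.update z l e) p ≤ ∑' p, t l z p := by
    intro l z
    rw [← Summable.tsum_finsetSum fun _ _ => ENNReal.summable]
    refine ENNReal.tsum_le_tsum fun p => ?_
    refine (Finset.sum_le_sum (g := fun e => if e = s p.1 p.2 l then t l z p else 0)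
      fun e _ => ?_).trans (by simp)
    by_cases hc : l + 1 ≤ L p.1 p.2 ∧ ∀ k < l + 1, Function.update z l e k = s p.1 p.2 k
    · have e1 : e = s p.1 p.2 l := by simpa using hc.2 l (Nat.lt_succ_self l)
      have e2 : l ≤ L p.1 p.2 ∧ ∀ k < l, z k = s p.1 p.2 k := ⟨by omega, fun k hk => by
        rw [← hc.2 k (by omega), Function.update_of_ne hk.ne]⟩
      simp only [t, if_pos hc, if_pos e1, if_pos e2, le_rfl]
    · simp only [t, if_neg hc, zero_le]
  refine ⟨fun l z => (Fintype.card D : ℝ≥0∞) ^ l * ∑' p, t l z p + 1, fun l z => le_add_self,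
    fun l z => ENNReal.add_ne_top.2 ⟨ENNReal.mul_ne_top (by simp) (hfin l z), by simp⟩,
    fun l z z' h => ?_, fun l z => ?_, fun z hz C N => ?_⟩
  · have : ∀ p, t l z p = t l z' p := fun p =>
      if_congr (and_congr_right fun _ => forall₂_congr fun k hk => by rw [h k hk]) rfl rfl
    simp only [this]
  · rw [Finset.sum_add_distrib, ← Finset.mul_sum, mul_add, ← mul_assoc, ← pow_succ']
    exact add_le_add (by gcongr; exact hsup l z) (by simp)
  · obtain ⟨i, hi⟩ := h3 (max C N) z hz
    refine ⟨L _ i, (le_max_right _ _).trans (h1 _ i), le_trans ?_ le_self_add⟩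
    rw [mul_left_comm]
    gcongr
    refine le_trans ?_ (ENNReal.le_tsum (⟨max C N, i⟩ : Σ m, ι m))
    simp only [t, if_pos (And.intro le_rfl hi)]
    gcongr
    exact_mod_cast (le_max_left C N).trans Nat.lt_two_pow_self.le

open scoped Classical in
theorem ville {D : Type} [Fintype D] {d : ℕ → (ℕ → D) → ℝ≥0∞}
    (hdep : ∀ l z z', (∀ k < l, z k = z' k) → d l z = d l z')
    (hsup : ∀ l z, ∑ e : D, d (l + 1) (Function.update z l e) ≤ Fintype.card D * d l z)
    (M m : ℕ) (z : ℕ → D) (lam : ℝ≥0∞) :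
    (((Finset.univ : Finset (Fin m → D)).filter
        fun u => ∃ i ≤ m, lam ≤ d (M + i) (splice M z u)).card : ℝ≥0∞) * lam
      ≤ (Fintype.card D : ℝ≥0∞) ^ m * d M z := by
  have h0 : ∀ (M : ℕ) (z : ℕ → D) {m : ℕ} (u : Fin m → D), d (M + 0) (splice M z u) = d M z :=
    fun M z m u => hdep _ _ _ fun k hk => dif_neg (by omega)
  induction m generalizing M z with
  | zero =>
    by_cases hl : lam ≤ d M z
    · refine mul_le_mul' ?_ hl
      exact_mod_cast (Finset.card_filter_le _ _).trans (by simp)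
    · rw [Finset.filter_eq_empty_iff.2, Finset.card_empty, Nat.cast_zero, zero_mul]
      · exact zero_le
      · rintro u - ⟨i, hi, h⟩
        rw [Nat.le_zero.1 hi, h0] at h
        exact hl h
  | succ m ih =>
    by_cases hl : lam ≤ d M z
    · refine mul_le_mul' ?_ hl
      exact_mod_cast (Finset.card_filter_le _ _).trans (by simp)
    have hs : ∀ u : Fin (m + 1) → D,
        splice M z u = splice (M + 1) (Function.update z M (u 0)) (Fin.tail u) := fun u => by
      funext k
      simp only [splice, Fin.tail]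
      by_cases h1 : M + 1 ≤ k ∧ k < M + 1 + m
      · rw [dif_pos h1, dif_pos (by omega)]
        exact congrArg u (Fin.ext (by simp; omega))
      · rw [dif_neg h1]
        by_cases h2 : k = M
        · subst h2
          rw [dif_pos (by omega), Function.update_self]
          exact congrArg u (Fin.ext (by simp))
        · rw [dif_neg (by omega), Function.update_of_ne h2]
    calc _ ≤ (((Finset.univ : Finset D).sigma fun e => (Finset.univ : Finset (Fin m → D)).filter
            fun u => ∃ i ≤ m, lam ≤ d (M + 1 + i)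
              (splice (M + 1) (Function.update z M e) u)).card : ℝ≥0∞) * lam := by
          gcongr
          refine Finset.card_le_card_of_injOn (fun u => ⟨u 0, Fin.tail u⟩) (fun u hu => ?_)
            fun u _ v _ e => ?_
          · obtain ⟨i, hi, h⟩ := (Finset.mem_filter.1 hu).2
            cases i with
            | zero => rw [h0] at h; exact absurd h hl
            | succ i =>
              refine Finset.mem_coe.2 (Finset.mem_sigma.2 ⟨Finset.mem_univ _,
                Finset.mem_filter.2 ⟨Finset.mem_univ _, i, by omega, ?_⟩⟩)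
              rwa [hs, show M + (i + 1) = M + 1 + i by omega] at h
          · simp only [Sigma.mk.injEq, heq_eq_eq] at e
            rw [← Fin.cons_self_tail u, e.1, e.2, Fin.cons_self_tail]
      _ ≤ ∑ e : D, (Fintype.card D : ℝ≥0∞) ^ m * d (M + 1) (Function.update z M e) := by
          rw [Finset.card_sigma, Nat.cast_sum, Finset.sum_mul]
          exact Finset.sum_le_sum fun e _ => ih _ _
      _ ≤ _ := by
          rw [← Finset.mul_sum, pow_succ, mul_assoc]
          gcongr
          exact hsup M z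

end Pool.Agent.Lib.MP_eebbd0_lc.Band
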