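import Pool.Agent.Lib.MP_eebbd0_lc.BStep

/-!
Parameters of the first condensing step.
-/

namespace Pool.Agent.Lib.MP_eebbd0_lc.Band

open Filter Topology
open scoped ENNReal

theorem bit1_anti {x y : ℕ} (h : x ≤ y) : (2⁻¹ : ℝ≥0∞) ^ y ≤ 2⁻¹ ^ x :=
  pow_le_pow_of_le_one (zero_le) (ENNReal.inv_le_one.2 one_le_two) h

theorem bit1_cancel (m : ℕ) : (2 : ℝ≥0∞) ^ m * 2⁻¹ ^ m = 1 := by
  rw [← mul_pow, ENNReal.mul_inv_cancel two_ne_zero ENNReal.ofNat_ne_top, one_pow]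

theorem bit1_prod (p j : ℕ) :
    ∏ i ∈ Finset.range j, 2 ^ (p * 2 ^ i) ≤ 2 ^ (p * 2 ^ j) := by
  induction j with
  | zero => simpa using Nat.one_le_two_pow
  | succ j ih =>
    rw [Finset.prod_range_succ]
    calc (∏ i ∈ Finset.range j, 2 ^ (p * 2 ^ i)) * 2 ^ (p * 2 ^ j)
        ≤ 2 ^ (p * 2 ^ j) * 2 ^ (p * 2 ^ j) := Nat.mul_le_mul_right _ ih
      _ = 2 ^ (p * 2 ^ (j + 1)) := by rw [← pow_add]; congr 1; ring

/-- First step: from a slowly decaying weight to dimension one half. -/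
theorem tr_first (p : ℕ) {φ : ℕ → ℝ≥0∞} (hφ : Low φ) :
    Tr (Fin p → Bool) φ (Fin 1 → Bool) (wt 1 fun l => l / 2) := by
  classical
  obtain ⟨e, he⟩ := hφ (8 * (p + 1) + 6)
  have hex : ∀ y : ℕ, ∃ a : ℕ, ∀ a', a ≤ a' → φ a' ≤ 2⁻¹ ^ y := by
    intro y
    obtain ⟨j, hj, hjy⟩ := (he.and (eventually_ge_atTop y)).exists
    refine ⟨e j, fun a' ha' => (hj.2 a' ha').trans (bit1_anti ?_)⟩
    have h1 : j < 2 ^ j := Nat.lt_two_pow_self
    nlinarith [Nat.zero_le p, Nat.zero_le (p * 2 ^ j)]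
  let H : ℕ → ℕ := fun y => Nat.find (hex y)
  have hH : ∀ y a', H y ≤ a' → φ a' ≤ 2⁻¹ ^ y := fun y => Nat.find_spec (hex y)
  have hHle : ∀ y a, (∀ a', a ≤ a' → φ a' ≤ 2⁻¹ ^ y) → H y ≤ a :=
    fun y a h => Nat.find_min' (hex y) h
  have hHm : Monotone H := fun x y hxy =>
    hHle x (H y) fun a' ha' => (hH y a' ha').trans (bit1_anti hxy)
  let M : ℕ → ℕ := fun j => 4 * (p + 1) * 2 ^ j
  have hM : StrictMono M := by
    refine strictMono_nat_of_lt_succ fun j => ?_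
    show 4 * (p + 1) * 2 ^ j < 4 * (p + 1) * 2 ^ (j + 1)
    exact Nat.mul_lt_mul_of_pos_left (Nat.pow_lt_pow_right one_lt_two (Nat.lt_succ_self j))
      (by positivity)
  let a : ℕ → ℕ := fun j => H (M (j + 1) + j) + j
  have ha : Monotone a := fun i j hij =>
    Nat.add_le_add (hHm (Nat.add_le_add (hM.monotone (Nat.succ_le_succ hij)) hij)) hij
  have ha' : Tendsto a atTop atTop :=
    tendsto_atTop_mono (fun j => Nat.le_add_left j _) tendsto_id
  have hb : Monotone fun j : ℕ => 2 ^ j := fun i j hij => Nat.pow_le_pow_right two_pos hij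
  have hb' : Tendsto (fun j : ℕ => 2 ^ j) atTop atTop :=
    tendsto_atTop_mono (fun j => (Nat.lt_two_pow_self (n := j)).le) tendsto_id
  obtain ⟨F, hF⟩ := exists_fub p 1 φ (wt 1 fun l => l / 2) M a (fun j => 2 ^ j)
    (fun j => p * a j + 6) (fun j => 2 ^ (p * 2 ^ j)) hM ha hb ha' hb'
    (fun j => by positivity)
    (fun j => Nat.mul_le_mul_right _ (Nat.le_add_left 6 _))
    (fun j => by omega)
    (Eventually.of_forall fun j => by
      have h1 : φ (a j) ≤ 2⁻¹ ^ (M (j + 1) + j) := hH _ _ (Nat.le_add_right _ _)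
      calc (2 : ℝ≥0∞) ^ (1 * M (j + 1)) * φ (a j)
          ≤ 2 ^ (1 * M (j + 1)) * 2⁻¹ ^ (M (j + 1) + j) := by gcongr
        _ = 2⁻¹ ^ j := by rw [one_mul, pow_add, ← mul_assoc, bit1_cancel, one_mul])
    (he.mono fun j hj => by
      refine le_trans ?_ hj.1
      have h1 : j < 2 ^ j := Nat.lt_two_pow_self
      have h2 : M (j + 1) + j ≤ (8 * (p + 1) + 6) * 2 ^ j := by
        show 4 * (p + 1) * 2 ^ (j + 1) + j ≤ (8 * (p + 1) + 6) * 2 ^ j
        rw [pow_succ]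
        nlinarith
      have h3 : H (M (j + 1) + j) ≤ e j :=
        hHle _ _ fun a' ha' => (hj.2 a' ha').trans (bit1_anti h2)
      have h4 : p * a j + 6 ≤ (8 * (p + 1) + 6) * (e j + j + 1) := by
        have h5 : a j ≤ e j + j := Nat.add_le_add_right h3 j
        have h6 : p * a j ≤ p * (e j + j) := Nat.mul_le_mul_left p h5
        nlinarith [Nat.zero_le (p * (e j + j)), Nat.zero_le (e j + j)]
      have h7 : ((p * a j + 6 : ℕ) : ℝ≥0∞) ≤ (((8 * (p + 1) + 6) * (e j + j + 1) : ℕ) : ℝ≥0∞) :=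
        Nat.cast_le.2 h4
      exact mul_le_mul_left h7 _)
    (Eventually.of_forall fun j l hl => by
      have h1 : p * 2 ^ (j + 1) ≤ l / 2 := by
        rw [Nat.le_div_iff_mul_le two_pos]
        refine le_trans ?_ hl
        show p * 2 ^ (j + 1) * 2 ≤ 4 * (p + 1) * 2 ^ j
        rw [pow_succ]
        nlinarith [Nat.zero_le (2 ^ j)]
      have h2 : ∏ i ∈ Finset.range (j + 1), 2 ^ (p * 2 ^ i) ≤ 2 ^ (l / 2) :=
        (bit1_prod p (j + 1)).trans (Nat.pow_le_pow_right two_pos h1)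
      have h3 : (2 : ℝ≥0∞) ^ (1 * l) * wt 1 (fun l => l / 2) l = 2 ^ (l / 2) := by
        unfold wt
        rw [mul_left_comm, bit1_cancel, mul_one]
      rw [h3]
      exact_mod_cast h2)
  exact hF.tr

end Pool.Agent.Lib.MP_eebbd0_lc.Band
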