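import Pool.Agent.Lib.MP_eebbd0_lc.BStep

/-!
Parameters of the later condensing steps.
-/

namespace Pool.Agent.Lib.MP_eebbd0_lc.Band

open Filter Topology
open scoped ENNReal

theorem bit2_pow_cancel (v : ℕ) : (2 : ℝ≥0∞) ^ v * 2⁻¹ ^ v = 1 := by
  rw [← mul_pow, ENNReal.mul_inv_cancel (by norm_num) (by norm_num), one_pow]

theorem bit2_le {x u v j : ℕ} (h : x * 2 ^ (u + j) ≤ 2 ^ v) :
    (x : ℝ≥0∞) * (2 ^ u * 2⁻¹ ^ v) ≤ 2⁻¹ ^ j := by
  have h1 : ((x * 2 ^ (u + j) : ℕ) : ℝ≥0∞) ≤ ((2 ^ v : ℕ) : ℝ≥0∞) := Nat.cast_le.2 h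
  push_cast at h1
  calc (x : ℝ≥0∞) * (2 ^ u * 2⁻¹ ^ v)
      = (x : ℝ≥0∞) * (2 ^ u * 2⁻¹ ^ v) * (2 ^ j * 2⁻¹ ^ j) := by rw [bit2_pow_cancel, mul_one]
    _ = (x : ℝ≥0∞) * 2 ^ (u + j) * (2⁻¹ ^ v * 2⁻¹ ^ j) := by rw [pow_add]; ring
    _ ≤ 2 ^ v * (2⁻¹ ^ v * 2⁻¹ ^ j) := mul_le_mul_left h1 _
    _ = 2⁻¹ ^ j := by rw [← mul_assoc, bit2_pow_cancel, one_mul]

theorem bit2_sq_le (j : ℕ) : (j + 4) * (j + 4) ≤ 2 ^ (j + 4) := by
  induction j with
  | zero => norm_num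
  | succ j ih =>
    have h : 2 ^ (j + 1 + 4) = 2 * 2 ^ (j + 4) := by ring
    rw [h]
    nlinarith

theorem bit2_lin (A B : ℕ) : ∀ᶠ j in atTop, A * j + B ≤ 2 ^ j := by
  refine eventually_atTop.2 ⟨A + B + 4, fun j hj => ?_⟩
  obtain ⟨i, rfl⟩ : ∃ i, j = i + 4 := ⟨j - 4, by omega⟩
  refine le_trans ?_ (bit2_sq_le i)
  have h : A + B ≤ i := by omega
  nlinarith

theorem bit2_prod (m : ℕ) : ∏ i ∈ Finset.range m, 2 ^ (2 ^ i + i + 4) ≤ 2 ^ (6 * 2 ^ m) := by
  induction m with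
  | zero => simp
  | succ m ih =>
    rw [Finset.prod_range_succ]
    refine (Nat.mul_le_mul_right _ ih).trans ?_
    rw [← pow_add]
    refine Nat.pow_le_pow_right (by norm_num) ?_
    have h : m < 2 ^ m := Nat.lt_two_pow_self
    rw [pow_succ]
    omega

/-- Later steps: the deficiency is evaluated at a logarithm. -/
theorem tr_next (n : ℕ) {d : ℕ → ℕ} (hd : Monotone d) (hd' : Tendsto d atTop atTop) {c : ℕ}
    (hc : ∀ l, 2 * d l ≤ l + c) :
    Tr (Fin 1 → Bool) (wt 1 d) (Fin n → Bool) (wt n fun l => 24 * d (4 * Nat.log 2 l + 4)) := by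
  have hex : ∀ j : ℕ, ∃ b, 2 ^ j < d (b + 1) := fun j => by
    obtain ⟨N, hN⟩ := eventually_atTop.1 (hd'.eventually_gt_atTop (2 ^ j))
    exact ⟨N, hN _ (Nat.le_succ N)⟩
  obtain ⟨b, hb1, hbm⟩ : ∃ b : ℕ → ℕ, (∀ j, 2 ^ j < d (b j + 1)) ∧
      ∀ j m, 2 ^ j < d (m + 1) → b j ≤ m :=
    ⟨fun j => Nat.find (hex j), fun j => Nat.find_spec (hex j),
      fun j m h => Nat.find_min' (hex j) h⟩
  have hb : Monotone b := fun j j' h =>
    hbm j _ (lt_of_le_of_lt (Nat.pow_le_pow_right (by norm_num) h) (hb1 j'))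
  have hb2 : ∀ j, 2 * 2 ^ j < b j + 1 + c := fun j => by
    have h1 := hb1 j
    have h2 := hc (b j + 1)
    omega
  have hb3 : ∀ j, d 0 ≤ 2 ^ j → d (b j) ≤ 2 ^ j := fun j h0 => by
    rcases Nat.eq_zero_or_eq_succ_pred (b j) with h | h
    · rw [h]
      exact h0
    · by_contra h1
      rw [h] at h1
      have h2 := hbm j _ (not_le.1 h1)
      have h3 : (b j).pred = b j - 1 := Nat.pred_eq_sub_one
      rw [Nat.succ_eq_add_one] at h
      omega
  have hb' : Tendsto b atTop atTop := by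
    refine tendsto_atTop_atTop.2 fun N => ⟨N + c, fun j hj => ?_⟩
    have h1 := hb2 j
    have h2 : j < 2 ^ j := Nat.lt_two_pow_self
    omega
  obtain ⟨M, hM0, hM1⟩ : ∃ M : ℕ → ℕ, M 0 = 0 ∧ ∀ j, M (j + 1) = 2 ^ (b j / 4) + j + 1 :=
    ⟨fun j => Nat.casesOn j 0 fun i => 2 ^ (b i / 4) + i + 1, rfl, fun _ => rfl⟩
  have hM : StrictMono M := by
    refine strictMono_nat_of_lt_succ fun j => ?_
    cases j with
    | zero =>
      rw [hM0, hM1]
      exact Nat.succ_pos _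
    | succ j =>
      rw [hM1, hM1]
      have h : 2 ^ (b j / 4) ≤ 2 ^ (b (j + 1) / 4) :=
        Nat.pow_le_pow_right (by norm_num) (Nat.div_le_div_right (hb (Nat.le_succ j)))
      omega
  obtain ⟨a, ha1⟩ : ∃ a : ℕ → ℕ, ∀ j, a j = 2 * (n * M (j + 1) + j) + c := ⟨_, fun _ => rfl⟩
  have ha : Monotone a := fun j j' h => by
    have h1 : n * M (j + 1) ≤ n * M (j' + 1) :=
      Nat.mul_le_mul_left n (hM.monotone (Nat.succ_le_succ h))
    rw [ha1, ha1]
    omega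
  have ha' : Tendsto a atTop atTop := by
    refine tendsto_atTop_atTop.2 fun N => ⟨N, fun j hj => ?_⟩
    rw [ha1]
    omega
  obtain ⟨F, hF⟩ := exists_fub 1 n (wt 1 d) (wt n fun l => 24 * d (4 * Nat.log 2 l + 4)) M a b
    (fun j => a j + 3 + 6 * 2 ^ b j / 2 ^ (2 ^ j + j + 4)) (fun j => 2 ^ (2 ^ j + j + 4)) hM ha hb
    ha' hb' (fun j => by positivity)
    (fun j => by
      have h1 := Nat.lt_div_mul_add (a := 6 * 2 ^ b j) (b := 2 ^ (2 ^ j + j + 4)) (by positivity)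
      rw [one_mul]
      nlinarith [Nat.zero_le (a j * 2 ^ (2 ^ j + j + 4)), Nat.zero_le (2 ^ (2 ^ j + j + 4))])
    (fun j => le_trans (by omega) (Nat.le_add_right (a j + 3) _))
    (Eventually.of_forall fun j => by
      have h1 : 2 ^ (n * M (j + 1)) * 2 ^ (d (a j) + j) ≤ 2 ^ (1 * a j) := by
        rw [← pow_add]
        refine Nat.pow_le_pow_right (by norm_num) ?_
        have h2 := hc (a j)
        have h3 := ha1 j
        omega
      have h2 := bit2_le h1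
      push_cast at h2
      exact h2)
    (by
      filter_upwards [bit2_lin 0 (d 0), bit2_lin (2 * n + 2) (4 * n + c + 3),
        bit2_lin 4 (2 * c + 3)] with j h1 h2 h3
      refine bit2_le ?_
      have h4 := hb3 j (by omega)
      have h5 := hb2 j
      have h6 := hc (b j)
      have hE : 1 ≤ 2 ^ (b j / 4) := Nat.one_le_two_pow
      have h7 : a j + 3 ≤ 2 ^ (b j / 4) * 2 ^ j := by
        refine le_trans ?_ (Nat.mul_le_mul_left _ h2)
        rw [ha1, hM1]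
        obtain ⟨e, he⟩ := Nat.exists_eq_add_of_le hE
        rw [he]
        nlinarith [Nat.zero_le (e * n * j), Nat.zero_le (e * j), Nat.zero_le (e * n),
          Nat.zero_le (e * c), Nat.zero_le e]
      have h8 : (a j + 3) * 2 ^ (d (b j) + j) * 2 ≤ 2 ^ b j := by
        refine (Nat.mul_le_mul_right _ (Nat.mul_le_mul_right _ h7)).trans ?_
        rw [← pow_add, ← pow_add, ← pow_succ]
        exact Nat.pow_le_pow_right (by norm_num) (by omega)
      have h9 : 2 ^ (d (b j) + j) * 16 ≤ 2 ^ (2 ^ j + j + 4) := by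
        rw [show (16 : ℕ) = 2 ^ 4 by norm_num, ← pow_add]
        exact Nat.pow_le_pow_right (by norm_num) (by omega)
      have h10 : 6 * 2 ^ b j / 2 ^ (2 ^ j + j + 4) * (2 ^ (d (b j) + j) * 16) ≤ 6 * 2 ^ b j :=
        (Nat.mul_le_mul_left _ h9).trans (Nat.div_mul_le_self _ _)
      rw [one_mul, add_mul (a j + 3)]
      rw [← mul_assoc] at h10
      omega)
    (by
      refine eventually_atTop.2 ⟨1, fun j hj l hl => ?_⟩
      obtain ⟨i, rfl⟩ : ∃ i, j = i + 1 := ⟨j - 1, by omega⟩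
      rw [hM1] at hl
      have h1 : b i / 4 ≤ Nat.log 2 l := Nat.le_log_of_pow_le (by norm_num) (by omega)
      have h2 : d (b i + 1) ≤ d (4 * Nat.log 2 l + 4) := hd (by omega)
      have h3 := hb1 i
      have h4 : ∏ k ∈ Finset.range (i + 1 + 1), 2 ^ (2 ^ k + k + 4) ≤
          2 ^ (24 * d (4 * Nat.log 2 l + 4)) := by
        refine (bit2_prod _).trans (Nat.pow_le_pow_right (by norm_num) ?_)
        rw [pow_succ, pow_succ]
        omega
      refine (Nat.cast_le.2 h4).trans (le_of_eq ?_)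
      rw [wt, mul_left_comm, bit2_pow_cancel, mul_one]
      push_cast
      rfl)
  exact hF.tr

end Pool.Agent.Lib.MP_eebbd0_lc.Band
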