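import Pool.Agent.Lib.MP_eebbd0_lc.BIt1
import Pool.Agent.Lib.MP_eebbd0_lc.BIt2

/-!
Iteration of the condensing step.
-/

namespace Pool.Agent.Lib.MP_eebbd0_lc.Band

open Filter Topology
open scoped ENNReal

theorem biter_log_le {x u : ℕ} (h : x ≤ 4 * u + 4) : Nat.log 2 x ≤ Nat.log 2 u + 3 := by
  have h1 : u < 2 ^ (Nat.log 2 u + 1) := Nat.lt_pow_succ_log_self (by norm_num) u
  have h2 : x ≤ 2 ^ (Nat.log 2 u + 3) := by
    have h3 : 2 ^ (Nat.log 2 u + 3) = 4 * 2 ^ (Nat.log 2 u + 1) := by ring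
    omega
  calc Nat.log 2 x ≤ Nat.log 2 (2 ^ (Nat.log 2 u + 3)) := Nat.log_mono_right h2
    _ = Nat.log 2 u + 3 := Nat.log_pow (by norm_num) _

theorem biter_iter_le (k : ℕ) : ∀ {x u : ℕ}, x ≤ 4 * u + 4 →
    (Nat.log 2)^[k] x ≤ 4 * (Nat.log 2)^[k] u + 4 := by
  induction k with
  | zero => intro x u h; simpa using h
  | succ k ih =>
    intro x u h
    rw [Function.iterate_succ_apply, Function.iterate_succ_apply]
    apply ih
    have h1 := biter_log_le h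
    omega

theorem biter_pow (m : ℕ) : 96 * m ≤ 2 ^ m + 960 := by
  induction m with
  | zero => simp
  | succ m ih =>
    by_cases hm : m ≤ 9
    · have h0 : 0 < 2 ^ (m + 1) := by positivity
      omega
    · have h1 : 2 ^ 7 ≤ 2 ^ m := Nat.pow_le_pow_right (by norm_num) (by omega)
      have h2 : 2 ^ (m + 1) = 2 * 2 ^ m := by ring
      omega

theorem biter_log_small (l : ℕ) : 96 * Nat.log 2 l ≤ l + 960 := by
  rcases Nat.eq_zero_or_pos l with rfl | hl
  · simp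
  · have h1 := biter_pow (Nat.log 2 l)
    have h2 : 2 ^ Nat.log 2 l ≤ l := Nat.pow_log_le_self 2 hl.ne'
    omega

theorem biter_log_tendsto : Tendsto (Nat.log 2) atTop atTop := by
  refine tendsto_atTop_atTop.2 fun b => ⟨2 ^ b, fun a ha => ?_⟩
  calc b = Nat.log 2 (2 ^ b) := (Nat.log_pow (by norm_num) _).symm
    _ ≤ Nat.log 2 a := Nat.log_mono_right ha

theorem biter_bound {k C : ℕ} {d : ℕ → ℕ} (h : ∀ l, d l ≤ C * (Nat.log 2)^[k] l + C) (l : ℕ) :
    24 * d (4 * Nat.log 2 l + 4) ≤ 120 * C * (Nat.log 2)^[k + 1] l + 120 * C := by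
  have h1 := h (4 * Nat.log 2 l + 4)
  have h2 := biter_iter_le k (le_refl (4 * Nat.log 2 l + 4))
  rw [Function.iterate_succ_apply]
  have h3 := Nat.mul_le_mul_left C h2
  nlinarith [Nat.zero_le (C * (Nat.log 2)^[k] (Nat.log 2 l))]

theorem biter_main (p : ℕ) {φ : ℕ → ℝ≥0∞} (hφ : Low φ) (k : ℕ) :
    ∃ (d : ℕ → ℕ) (C c : ℕ), Monotone d ∧ Tendsto d atTop atTop ∧ (∀ l, 2 * d l ≤ l + c) ∧
      (∀ l, d l ≤ C * (Nat.log 2)^[k] l + C) ∧
      Tr (Fin p → Bool) φ (Fin 1 → Bool) (wt 1 d) := by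
  induction k with
  | zero =>
    refine ⟨fun l => l / 2, 1, 0, fun a b hab => Nat.div_le_div_right hab, ?_, fun l => ?_,
      fun l => ?_, tr_first p hφ⟩
    · exact tendsto_atTop_atTop.2 fun b => ⟨2 * b, fun a ha => by omega⟩
    · show 2 * (l / 2) ≤ l + 0
      omega
    · simp only [Function.iterate_zero, id_eq]
      omega
  | succ k ih =>
    obtain ⟨d, C, c, h1, h2, h3, h4, h5⟩ := ih
    refine ⟨fun l => 24 * d (4 * Nat.log 2 l + 4), 120 * C, 1056 + 24 * c, fun a b hab => ?_, ?_,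
      fun l => ?_, biter_bound h4, h5.trans (tr_next 1 h1 h2 h3)⟩
    · have h6 : Nat.log 2 a ≤ Nat.log 2 b := Nat.log_mono_right hab
      exact Nat.mul_le_mul_left 24 (h1 (by omega))
    · have h6 : Tendsto (fun l => 4 * Nat.log 2 l + 4) atTop atTop :=
        tendsto_atTop_mono (fun l => by omega) biter_log_tendsto
      exact tendsto_atTop_mono (f := fun l => d (4 * Nat.log 2 l + 4)) (fun l => by omega)
        (h2.comp h6)
    · have h6 := h3 (4 * Nat.log 2 l + 4)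
      have h7 := biter_log_small l
      show 2 * (24 * d (4 * Nat.log 2 l + 4)) ≤ l + (1056 + 24 * c)
      omega

theorem tr_iter (p n k : ℕ) {φ : ℕ → ℝ≥0∞} (hφ : Low φ) :
    ∃ (d : ℕ → ℕ) (C : ℕ), (∀ l, d l ≤ C * (Nat.log 2)^[k + 1] l + C) ∧
      Tr (Fin p → Bool) φ (Fin n → Bool) (wt n d) := by
  obtain ⟨d, C, c, h1, h2, h3, h4, h5⟩ := biter_main p hφ k
  exact ⟨fun l => 24 * d (4 * Nat.log 2 l + 4), 120 * C, biter_bound h4,
    h5.trans (tr_next n h1 h2 h3)⟩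

end Pool.Agent.Lib.MP_eebbd0_lc.Band
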