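import Pool.Agent.Lib.MP_eebbd0_lc.BDefs

/-!
Asymptotics at the slowly decaying end.
-/

namespace Pool.Agent.Lib.MP_eebbd0_lc.Band

open Filter Topology
open scoped ENNReal

theorem blow_mono (m : ℕ) : Monotone Real.exp^[m] := Real.exp_monotone.iterate m

theorem blow_le_log (m : ℕ) {u x : ℝ} (h : Real.exp^[m] u ≤ x) : u ≤ Real.log^[m] x := by
  induction m generalizing x with
  | zero => exact h
  | succ m ih =>
    rw [Function.iterate_succ_apply'] at h
    rw [Function.iterate_succ_apply]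
    exact ih ((Real.le_log_iff_exp_le ((Real.exp_pos _).trans_le h)).2 h)

theorem blow_exp_log (m : ℕ) {x : ℝ} (h : Real.exp^[m] 0 ≤ x) :
    Real.exp^[m] (Real.log^[m] x) = x := by
  induction m generalizing x with
  | zero => rfl
  | succ m ih =>
    rw [Function.iterate_succ_apply'] at h
    have h0 := (Real.exp_pos _).trans_le h
    rw [Function.iterate_succ_apply', Function.iterate_succ_apply,
      ih ((Real.le_log_iff_exp_le h0).2 h), Real.exp_log h0]

theorem blow_tendsto (m : ℕ) : Tendsto Real.log^[m] atTop atTop :=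
  tendsto_atTop.2 fun u => (eventually_ge_atTop (Real.exp^[m] u)).mono fun _ h => blow_le_log m h

theorem blow_nonneg (m : ℕ) {y : ℝ} (h : 0 ≤ y) : 0 ≤ Real.exp^[m] y := by
  cases m with
  | zero => exact h
  | succ m =>
    rw [Function.iterate_succ_apply']
    exact (Real.exp_pos _).le

theorem blow_comm (m : ℕ) (y : ℝ) : Real.exp^[m] (Real.exp y) = Real.exp (Real.exp^[m] y) := by
  rw [← Function.iterate_succ_apply, Function.iterate_succ_apply']

theorem blow_lin (m : ℕ) {C : ℝ} (hC : 0 ≤ C) : ∃ C' : ℝ, 0 < C' ∧ ∀ y, 0 ≤ y →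
    C * Real.exp^[m] y + C ≤ Real.exp^[m] (C' * y + C') := by
  induction m generalizing C with
  | zero =>
    refine ⟨C + 1, by linarith, fun y hy => ?_⟩
    simp only [Function.iterate_zero, id]
    nlinarith
  | succ m ih =>
    obtain ⟨C', h1, h2⟩ := ih (C := 2 * C + 1) (by linarith)
    refine ⟨C', h1, fun y hy => ?_⟩
    rw [Function.iterate_succ_apply', Function.iterate_succ_apply']
    have h3 := blow_nonneg m hy
    refine le_trans ?_ (Real.exp_le_exp.2 (le_trans (b := (2 * C + 1) * Real.exp^[m] y +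
      (2 * C + 1)) (a := Real.exp^[m] y + 2 * C) (by nlinarith) (h2 y hy)))
    rw [Real.exp_add]
    have h4 := Real.add_one_le_exp (2 * C)
    have h5 := Real.one_le_exp h3
    nlinarith

theorem blow_log {ε : ℝ} (hε : 0 < ε) {A : ℝ} (hA : 0 < A) (B : ℝ) :
    ∀ᶠ y : ℝ in atTop, A * Real.log y + B ≤ y ^ ε := by
  have h1 := (isLittleO_log_rpow_atTop hε).bound (c := 1 / (2 * A)) (by positivity)
  filter_upwards [h1, (tendsto_rpow_atTop hε).eventually_ge_atTop (2 * B),
    eventually_ge_atTop (0 : ℝ)] with y h2 h3 h4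
  rw [Real.norm_eq_abs, Real.norm_eq_abs, abs_of_nonneg (Real.rpow_nonneg h4 ε)] at h2
  have h5 : A * Real.log y ≤ A * (1 / (2 * A) * y ^ ε) :=
    mul_le_mul_of_nonneg_left ((le_abs_self _).trans h2) hA.le
  have h6 : A * (1 / (2 * A) * y ^ ε) = y ^ ε / 2 := by field_simp
  linarith

theorem blow_half (n : ℕ) : (2⁻¹ : ℝ≥0∞) ^ n = ENNReal.ofReal ((1 / 2) ^ n) := by
  rw [ENNReal.ofReal_pow (by norm_num), one_div, ENNReal.ofReal_inv_of_pos (by norm_num)]
  simp

/-- the exponent of the weight -/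
noncomputable def blow_h (m : ℕ) (ε x : ℝ) : ℝ := Real.exp^[m] (Real.log^[m] (x / 2) ^ ε)

theorem blow_tend2 (m : ℕ) : Tendsto (fun x : ℝ => Real.log^[m] (x / 2)) atTop atTop :=
  (blow_tendsto m).comp (tendsto_id.atTop_div_const two_pos)

theorem blow_one (m : ℕ) {ε : ℝ} (hε : 0 < ε) :
    ∀ᶠ x : ℝ in atTop, 4 * Real.log x ≤ blow_h m ε x := by
  obtain ⟨C', h1, h2⟩ := blow_lin m (C := 4) (by norm_num)
  filter_upwards [(blow_tend2 m).eventually (blow_log hε h1 C'),
    (blow_tend2 m).eventually_ge_atTop 1, eventually_ge_atTop (2 * Real.exp^[m] 0),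
    eventually_gt_atTop (0 : ℝ)] with x h3 h4 h5 h6
  have h7 := blow_exp_log m (x := x / 2) (by linarith)
  unfold blow_h
  set y := Real.log^[m] (x / 2)
  have h8 : Real.log (x / 2) = Real.exp^[m] (Real.log y) := by
    rw [← h7, ← Real.exp_log (x := y) (by linarith), blow_comm, Real.log_exp, Real.log_exp]
  rw [Real.log_div h6.ne' two_ne_zero] at h8
  have h9 := h2 _ (Real.log_nonneg h4)
  have h10 := blow_mono m h3
  have h11 := Real.log_two_lt_d9
  linarith

theorem blow_two (m : ℕ) {ε : ℝ} (hε : 0 < ε) {C : ℝ} (hC : 0 ≤ C) :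
    ∀ᶠ x : ℝ in atTop, ∀ a, Real.exp (blow_h m ε x / 2) ≤ a → C * x ≤ blow_h m ε a := by
  obtain ⟨C', h1, h2⟩ := blow_lin m (C := 4) (by norm_num)
  obtain ⟨D, d1, d2⟩ := blow_lin m (C := 2 * C) (by linarith)
  filter_upwards [(blow_tend2 m).eventually (blow_log hε (A := C' / ε) (by positivity)
      (C' / ε * |Real.log (2 * D)| + C')),
    (blow_tend2 m).eventually_ge_atTop 1, eventually_ge_atTop (2 * Real.exp^[m] 0)]
    with x h3 h4 h5 a ha
  have h7 := blow_exp_log m (x := x / 2) (by linarith)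
  unfold blow_h at ha ⊢
  set y := Real.log^[m] (x / 2)
  set v := (y ^ ε - C') / C' with hv
  have l0 := Real.log_nonneg h4
  have l1 : Real.log y + |Real.log (2 * D)| ≤ ε * v := by
    rw [hv, ← mul_div_assoc, le_div_iff₀ h1]
    have e : ε * (C' / ε * Real.log y + (C' / ε * |Real.log (2 * D)| + C')) =
        (Real.log y + |Real.log (2 * D)|) * C' + ε * C' := by
      field_simp
      ring
    have := mul_le_mul_of_nonneg_left h3 hε.le
    linarith
  have v0 : 0 ≤ v := by
    have := abs_nonneg (Real.log (2 * D))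
    exact le_of_mul_le_mul_left (by linarith) hε
  have e1 : C' * v + C' = y ^ ε := by
    rw [hv]
    field_simp
    ring
  have e2 := h2 v v0
  rw [e1] at e2
  have e3 := blow_nonneg m v0
  have e4 : Real.exp^[m] (Real.exp v) ≤ a / 2 := by
    rw [blow_comm]
    have f1 : Real.exp (Real.exp^[m] v + 1) ≤ a :=
      le_trans (Real.exp_le_exp.2 (by linarith)) ha
    rw [Real.exp_add] at f1
    have f2 := Real.add_one_le_exp (1 : ℝ)
    have f3 := Real.exp_pos (Real.exp^[m] v)
    nlinarith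
  have e5 : Real.exp v ^ ε ≤ Real.log^[m] (a / 2) ^ ε :=
    Real.rpow_le_rpow (Real.exp_pos _).le (blow_le_log m e4) hε.le
  have e6 : D * y + D ≤ Real.exp v ^ ε := by
    rw [← Real.exp_mul, mul_comm v]
    calc D * y + D ≤ y * (2 * D) := by nlinarith
      _ = Real.exp (Real.log y + Real.log (2 * D)) := by
          rw [Real.exp_add, Real.exp_log (by linarith), Real.exp_log (by linarith)]
      _ ≤ _ := Real.exp_le_exp.2 (by linarith [le_abs_self (Real.log (2 * D))])
  have e7 := d2 y (by linarith)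
  have e8 := blow_mono m (e6.trans e5)
  rw [h7] at e7
  linarith

theorem blow_small (C : ℝ) : ∀ᶠ j : ℕ in atTop, C * (j + 3) ≤ 2 ^ j := by
  have h1 := tendsto_pow_const_div_const_pow_of_one_lt 2 (r := 2) (by norm_num)
  filter_upwards [h1.eventually_le_const one_pos, eventually_ge_atTop (⌈4 * |C|⌉₊ + 1)]
    with j h2 h3
  rw [div_le_one (by positivity)] at h2
  have h4 : ((⌈4 * |C|⌉₊ + 1 : ℕ) : ℝ) ≤ j := by exact_mod_cast h3
  push_cast at h4
  have h5 := Nat.le_ceil (4 * |C|)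
  have h6 := le_abs_self C
  have h7 := abs_nonneg C
  nlinarith

theorem blow_low (m : ℕ) {ε : ℝ} (hε : 0 < ε) :
    Low fun l => ENNReal.ofReal (Real.exp (-blow_h m ε l)) := by
  intro C
  have ht : Tendsto (fun j : ℕ => (2 : ℝ) ^ j) atTop atTop :=
    tendsto_pow_atTop_atTop_of_one_lt one_lt_two
  refine ⟨fun j => ⌈Real.exp (blow_h m ε (2 ^ j) / 2)⌉₊, ?_⟩
  filter_upwards [ht.eventually (blow_one m hε), ht.eventually (blow_two m hε (Nat.cast_nonneg C)),
    blow_small C] with j h1 h2 h3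
  constructor
  · rw [blow_half, ← ENNReal.ofReal_natCast, ← ENNReal.ofReal_mul (Nat.cast_nonneg _)]
    refine ENNReal.ofReal_le_ofReal ?_
    push_cast
    set h := blow_h m ε (2 ^ j)
    have p0 : (0 : ℝ) < 2 ^ j := by positivity
    have p1 : (1 : ℝ) ≤ 2 ^ j := one_le_pow₀ one_le_two
    have e1 : ((2 : ℝ) ^ j) ^ 2 ≤ Real.exp (h / 2) := by
      rw [← Real.exp_log (x := ((2 : ℝ) ^ j) ^ 2) (by positivity), Real.log_pow]
      exact Real.exp_le_exp.2 (by push_cast; linarith)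
    have e2 := (Nat.ceil_lt_add_one (Real.exp_pos (h / 2)).le).le
    have e3 : Real.exp (-h) = (Real.exp (h / 2) * Real.exp (h / 2))⁻¹ := by
      rw [← Real.exp_add, add_halves, Real.exp_neg]
    set u := Real.exp (h / 2)
    have e4 : 1 ≤ u := le_trans (one_le_pow₀ p1) e1
    have c0 : (0 : ℝ) ≤ C := Nat.cast_nonneg C
    have j0 : (0 : ℝ) ≤ j := Nat.cast_nonneg j
    rw [e3, one_div_pow, ← div_eq_mul_inv, div_le_div_iff₀ (by positivity) p0, one_mul]
    calc (C : ℝ) * (⌈u⌉₊ + j + 1) * 2 ^ j ≤ C * ((j + 3) * u) * 2 ^ j := by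
          gcongr
          nlinarith
      _ = C * (j + 3) * 2 ^ j * u := by ring
      _ ≤ 2 ^ j * 2 ^ j * u := by gcongr
      _ ≤ u * u := mul_le_mul_of_nonneg_right (by rw [← sq]; exact e1) (by linarith)
  · intro a ha
    rw [blow_half]
    refine ENNReal.ofReal_le_ofReal ?_
    have e1 := h2 a (Nat.ceil_le.1 ha)
    rw [← Real.exp_log (x := ((1 : ℝ) / 2) ^ (C * 2 ^ j)) (by positivity), Real.log_pow, one_div,
      Real.log_inv]
    refine Real.exp_le_exp.2 ?_
    push_cast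
    have e2 := Real.log_two_lt_d9
    have e3 : (0 : ℝ) ≤ C * 2 ^ j := by positivity
    nlinarith

theorem exists_low (p m : ℕ) {ε : ℝ} (hε : 0 < ε) {f : ℝ≥0∞ → ℝ≥0∞}
    (hf : ∀ᶠ t : ℝ in 𝓝[>] 0, f (ENNReal.ofReal t) ≤
      ENNReal.ofReal (Real.exp (-Real.exp^[m] (Real.log^[m + 1] (1 / t) ^ ε)))) :
    ∃ φ : ℕ → ℝ≥0∞, Low φ ∧
      ∀ᶠ l in atTop, ∀ t : ℝ, 0 < t → t ≤ p * (1 / 2) ^ l → f (ENNReal.ofReal t) ≤ φ l := by
  refine ⟨_, blow_low m hε, ?_⟩
  obtain ⟨δ, hδ, h1⟩ := (nhdsGT_basis (0 : ℝ)).eventually_iff.1 hf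
  have h2 : Tendsto (fun l : ℕ => (p : ℝ) * (1 / 2) ^ l) atTop (𝓝 0) := by
    simpa using (tendsto_pow_atTop_nhds_zero_of_lt_one (r := (1 / 2 : ℝ)) (by norm_num)
      (by norm_num)).const_mul (p : ℝ)
  have h3 : Tendsto (fun l : ℕ => (l : ℝ)) atTop atTop := tendsto_natCast_atTop_atTop
  filter_upwards [h2.eventually_lt_const hδ, h3.eventually_ge_atTop (2 * Real.exp^[m] 0),
    h3.eventually_ge_atTop (10 * p)] with l e1 e2 e3 t t0 t1
  refine (h1 ⟨t0, t1.trans_lt e1⟩).trans (ENNReal.ofReal_le_ofReal (Real.exp_le_exp.2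
    (neg_le_neg (blow_mono m ?_))))
  have e4 : Real.exp^[m] 0 ≤ (l : ℝ) / 2 := by linarith
  have p0 : (0 : ℝ) < p := pos_of_mul_pos_left (t0.trans_le t1) (by positivity)
  have e5 : (l : ℝ) / 2 ≤ Real.log (1 / t) := by
    have f1 := Real.log_le_log t0 t1
    rw [Real.log_mul p0.ne' (by positivity), Real.log_pow, one_div, Real.log_inv] at f1
    rw [one_div, Real.log_inv]
    have f2 := Real.log_le_sub_one_of_pos p0
    have f3 := Real.log_two_gt_d9
    have f4 : (0 : ℝ) ≤ l := Nat.cast_nonneg l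
    nlinarith
  rw [Function.iterate_succ_apply]
  exact Real.rpow_le_rpow (blow_le_log m e4)
    (blow_le_log m ((blow_exp_log m e4).le.trans e5)) hε.le

end Pool.Agent.Lib.MP_eebbd0_lc.Band
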