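import Pool.Agent.Lib.MP_eebbd0_lc.BDefs

/-!
Asymptotics at the full-dimensional end, and the power gauges.
-/

namespace Pool.Agent.Lib.MP_eebbd0_lc.Band

open Filter Topology
open scoped ENNReal

theorem bup_wt (n : ℕ) (d : ℕ → ℕ) (l : ℕ) :
    wt n d l = ENNReal.ofReal (2 ^ d l * (1 / 2) ^ (n * l)) := by
  rw [wt, ENNReal.ofReal_mul (by positivity), ENNReal.ofReal_pow (by norm_num),
    ENNReal.ofReal_pow (by norm_num), one_div, ENNReal.ofReal_inv_of_pos (by norm_num)]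
  simp

theorem bup_iter_le (k x : ℕ) : (Nat.log 2)^[k] x ≤ x := by
  induction k with
  | zero => simp
  | succ k ih =>
    rw [Function.iterate_succ_apply']
    exact (Nat.log_le_self _ _).trans ih

theorem bup_top (k : ℕ) : Tendsto (Real.log^[k]) atTop atTop := by
  induction k with
  | zero => exact tendsto_id
  | succ k ih =>
    rw [Function.iterate_succ']
    exact Real.tendsto_log_atTop.comp ih

theorem bup_mono (k : ℕ) :
    ∀ᶠ x : ℝ in atTop, ∀ y, x ≤ y → Real.log^[k] x ≤ Real.log^[k] y := by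
  induction k with
  | zero => exact Eventually.of_forall fun x y h => h
  | succ k ih =>
    filter_upwards [ih, (bup_top k).eventually_gt_atTop 0] with x h1 h2 y hy
    rw [Function.iterate_succ_apply', Function.iterate_succ_apply']
    exact Real.log_le_log h2 (h1 y hy)

theorem bup_two : Tendsto (fun l : ℕ => (2 : ℝ) ^ l) atTop atTop :=
  tendsto_pow_atTop_atTop_of_one_lt (by norm_num)

theorem bup_nat (k : ℕ) :
    ∀ᶠ l : ℕ in atTop, (((Nat.log 2)^[k] l : ℕ) : ℝ) ≤ 2 * Real.log^[k + 1] (2 ^ l) := by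
  have h2 := Real.log_two_gt_d9
  have h3 := Real.log_two_lt_d9
  induction k with
  | zero =>
    refine Eventually.of_forall fun l => ?_
    simp only [Function.iterate_zero, id_eq, zero_add, Function.iterate_one, Real.log_pow]
    have h4 : (0 : ℝ) ≤ l := Nat.cast_nonneg l
    nlinarith
  | succ k ih =>
    filter_upwards [ih, ((bup_top (k + 1)).comp bup_two).eventually_gt_atTop 0,
      ((bup_top (k + 1 + 1)).comp bup_two).eventually_ge_atTop 2] with l h4 h5 h6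
    simp only [Function.comp_apply] at h5 h6
    rw [Function.iterate_succ_apply' (Nat.log 2)]
    rw [Function.iterate_succ_apply' Real.log (k + 1)] at h6 ⊢
    generalize (Nat.log 2)^[k] l = u at h4 ⊢
    generalize Real.log^[k + 1] (2 ^ l) = y at h4 h5 h6 ⊢
    rcases Nat.eq_zero_or_pos u with rfl | hu
    · simp only [Nat.log_zero_right, Nat.cast_zero]; linarith
    · have h7 : (2 : ℝ) ^ Nat.log 2 u ≤ 2 * y := by
        refine le_trans ?_ h4
        exact_mod_cast Nat.pow_log_le_self 2 hu.ne'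
      have h8 := Real.log_le_log (by positivity) h7
      rw [Real.log_pow, Real.log_mul (by norm_num) h5.ne'] at h8
      have h9 : (0 : ℝ) ≤ (Nat.log 2 u : ℕ) := Nat.cast_nonneg _
      nlinarith

theorem bup_lin (C : ℕ) : ∀ᶠ z : ℝ in atTop, C * (2 * Real.log z) + C ≤ z := by
  have hc : (0 : ℝ) < 1 / (4 * C + 4) := by positivity
  filter_upwards [Real.isLittleO_log_id_atTop.bound hc, eventually_ge_atTop (2 * C : ℝ),
    eventually_ge_atTop (0 : ℝ)] with z h1 h2 h3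
  rw [id_eq, Real.norm_eq_abs, Real.norm_eq_abs, abs_of_nonneg h3] at h1
  have h4 : Real.log z ≤ 1 / (4 * C + 4) * z := (le_abs_self _).trans h1
  have h5 : (0 : ℝ) ≤ C := Nat.cast_nonneg C
  have h6 : (4 * C + 4) * Real.log z ≤ z := by
    rw [one_div, inv_mul_eq_div, le_div_iff₀ (by positivity)] at h4
    linarith
  rcases le_total 0 (Real.log z) with h7 | h7
  · nlinarith
  · nlinarith

theorem bup_key (k : ℕ) {d : ℕ → ℕ} {C : ℕ}
    (hd : ∀ l, d l ≤ C * (Nat.log 2)^[k + 1] l + C) :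
    ∀ᶠ l : ℕ in atTop, (2 : ℝ) ^ d l ≤ Real.log^[k] (2 ^ l) := by
  filter_upwards [bup_nat (k + 1), ((bup_top k).comp bup_two).eventually_gt_atTop 0,
    ((bup_top (k + 1)).comp bup_two).eventually (bup_lin C)] with l h1 h2 h3
  simp only [Function.comp_apply] at h2 h3
  rw [Function.iterate_succ_apply' Real.log (k + 1)] at h1
  have h4 : (d l : ℝ) ≤ C * (((Nat.log 2)^[k + 1] l : ℕ) : ℝ) + C := by exact_mod_cast hd l
  have h5 : (0 : ℝ) ≤ C := Nat.cast_nonneg C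
  have h6 : (d l : ℝ) ≤ Real.log^[k + 1] (2 ^ l) :=
    h4.trans (le_trans (by gcongr) h3)
  rw [Function.iterate_succ_apply'] at h6
  rw [← Real.log_le_log_iff (by positivity) h2, Real.log_pow]
  have h7 := Real.log_two_lt_d9
  have h8 : (0 : ℝ) ≤ d l := Nat.cast_nonneg _
  nlinarith

theorem wt_tendsto {n : ℕ} (hn : 0 < n) (k : ℕ) {d : ℕ → ℕ} {C : ℕ}
    (hd : ∀ l, d l ≤ C * (Nat.log 2)^[k + 1] l + C) : Tendsto (wt n d) atTop (𝓝 0) := by
  have h1 : Tendsto (fun l : ℕ => ENNReal.ofReal (2 ^ C * ((l : ℝ) ^ C * (1 / 2) ^ l))) atTop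
      (𝓝 0) := by
    have h2 := (tendsto_pow_const_mul_const_pow_of_abs_lt_one C
      (r := (1 / 2 : ℝ)) (by norm_num [abs_of_pos])).const_mul (2 ^ C : ℝ)
    rw [mul_zero] at h2
    simpa using ENNReal.tendsto_ofReal h2
  refine tendsto_of_tendsto_of_tendsto_of_le_of_le' tendsto_const_nhds h1
    (Eventually.of_forall fun l => zero_le) ?_
  filter_upwards [eventually_ge_atTop 1] with l hl
  rw [bup_wt]
  refine ENNReal.ofReal_le_ofReal ?_
  have h3 : d l ≤ C * Nat.log 2 l + C := by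
    refine (hd l).trans ?_
    rw [Function.iterate_succ_apply]
    gcongr
    exact bup_iter_le _ _
  have h4 : 2 ^ d l ≤ 2 ^ C * l ^ C := by
    refine (Nat.pow_le_pow_right (by norm_num) h3).trans ?_
    rw [pow_add, mul_comm, mul_comm C, pow_mul]
    gcongr
    exact Nat.pow_log_le_self 2 (by omega)
  have h5 : (2 : ℝ) ^ d l ≤ 2 ^ C * (l : ℝ) ^ C := by exact_mod_cast h4
  have h6 : (1 / 2 : ℝ) ^ (n * l) ≤ (1 / 2) ^ l :=
    pow_le_pow_of_le_one (by norm_num) (by norm_num) (Nat.le_mul_of_pos_left l hn)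
  rw [← mul_assoc]
  gcongr

theorem wt_le_gauge (n k : ℕ) {d : ℕ → ℕ} {C : ℕ}
    (hd : ∀ l, d l ≤ C * (Nat.log 2)^[k + 1] l + C) {g : ℝ≥0∞ → ℝ≥0∞}
    (hg : ∀ᶠ t : ℝ in 𝓝[>] 0,
      ENNReal.ofReal (t ^ n * Real.log^[k] (1 / t)) ≤ g (ENNReal.ofReal t)) :
    ∀ᶠ l in atTop, ∀ t : ℝ, (1 / 2) ^ (l + 1) < t → t ≤ (1 / 2) ^ l →
      wt n d l ≤ ((2 ^ n : ℕ) : ℝ≥0∞) * g (ENNReal.ofReal t) := by
  obtain ⟨δ, hδ, hg⟩ := (nhdsGT_basis (0 : ℝ)).eventually_iff.1 hg
  have h0 : Tendsto (fun l : ℕ => (1 / 2 : ℝ) ^ l) atTop (𝓝 0) :=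
    tendsto_pow_atTop_nhds_zero_of_lt_one (by norm_num) (by norm_num)
  filter_upwards [bup_key k hd, bup_two.eventually (bup_mono k),
    h0.eventually (gt_mem_nhds hδ)] with l h1 h2 h3 t ht1 ht2
  have ht : 0 < t := lt_trans (by positivity) ht1
  have h4 := hg (x := t) ⟨ht, ht2.trans_lt h3⟩
  have h5 : (2 : ℝ) ^ l ≤ 1 / t := by
    rw [le_div_iff₀ ht]
    calc (2 : ℝ) ^ l * t ≤ 2 ^ l * (1 / 2) ^ l := by gcongr
      _ = 1 := by rw [← mul_pow]; norm_num
  have h6 := h1.trans (h2 _ h5)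
  have h7 : (1 / 2 : ℝ) ^ (n * l) ≤ 2 ^ n * t ^ n := by
    rw [mul_comm n l, pow_mul, ← mul_pow]
    refine pow_le_pow_left₀ (by positivity) ?_ n
    rw [pow_succ] at ht1
    linarith
  refine le_trans ?_ (mul_le_mul_right h4 _)
  rw [bup_wt, ← ENNReal.ofReal_natCast, ← ENNReal.ofReal_mul (Nat.cast_nonneg _)]
  refine ENNReal.ofReal_le_ofReal ?_
  push_cast
  rw [← mul_assoc, mul_comm]
  exact mul_le_mul h7 h6 (by positivity) (by positivity)

theorem rpow_up {n : ℕ} {r : ℝ} (hr : 0 < r) (hrn : r < n) :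
    ∀ᶠ t : ℝ in 𝓝[>] 0,
      ENNReal.ofReal (t ^ n * Real.log^[1] (1 / t)) ≤ ENNReal.ofReal t ^ r := by
  have h1 := (tendsto_log_mul_rpow_nhdsGT_zero (sub_pos.2 hrn)).eventually
    (lt_mem_nhds (by norm_num : (-1 : ℝ) < 0))
  filter_upwards [h1, self_mem_nhdsWithin] with t h2 ht
  have ht0 : 0 < t := ht
  rw [ENNReal.ofReal_rpow_of_pos ht0]
  refine ENNReal.ofReal_le_ofReal ?_
  have h3 : t ^ n = t ^ r * t ^ ((n : ℝ) - r) := by
    rw [← Real.rpow_add ht0, add_sub_cancel, Real.rpow_natCast]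
  have h4 : 0 < t ^ r := Real.rpow_pos_of_pos ht0 r
  rw [Function.iterate_one, one_div, Real.log_inv, h3]
  nlinarith

theorem rpow_low {r : ℝ} (hr : 0 < r) :
    ∀ᶠ t : ℝ in 𝓝[>] 0, ENNReal.ofReal t ^ r ≤
      ENNReal.ofReal (Real.exp (-Real.exp^[0] (Real.log^[0 + 1] (1 / t) ^ (1 / 2 : ℝ)))) := by
  have h1 : Tendsto (fun t : ℝ => Real.log (1 / t)) (𝓝[>] 0) atTop := by
    simp only [one_div]
    exact Real.tendsto_log_atTop.comp tendsto_inv_nhdsGT_zero
  have h2 := (tendsto_rpow_atTop (by norm_num : (0 : ℝ) < 1 / 2)).comp h1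
  filter_upwards [h1.eventually_gt_atTop 0, h2.eventually_ge_atTop (1 / r),
    self_mem_nhdsWithin] with t h3 h4 ht
  have ht0 : 0 < t := ht
  simp only [Function.comp_apply] at h4
  rw [ENNReal.ofReal_rpow_of_pos ht0]
  refine ENNReal.ofReal_le_ofReal ?_
  rw [Real.rpow_def_of_pos ht0, Real.exp_le_exp, Function.iterate_zero_apply, zero_add,
    Function.iterate_one]
  have h5 : Real.log t = -Real.log (1 / t) := by rw [one_div, Real.log_inv, neg_neg]
  rw [h5]
  generalize Real.log (1 / t) = u at h3 h4 ⊢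
  have h6 : u ^ (1 / 2 : ℝ) * u ^ (1 / 2 : ℝ) = u := by
    rw [← Real.rpow_add h3]; norm_num
  have h7 : 0 < u ^ (1 / 2 : ℝ) := Real.rpow_pos_of_pos h3 _
  rw [div_le_iff₀ hr] at h4
  generalize u ^ (1 / 2 : ℝ) = w at h4 h6 h7 ⊢
  subst h6
  nlinarith

end Pool.Agent.Lib.MP_eebbd0_lc.Band
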