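import Mathlib

/-!
From a null set for the `s`-dimensional Hausdorff measure to a predictor of digit blocks.
-/

namespace Pool.Agent.Lib.MP_eebbd0_lc

open Finset MeasureTheory Filter Topology
open scoped ENNReal

theorem exists_cover {n : ℕ} {s : ℝ} (hs : 0 < s) {Y : Set (Fin n → ℝ)} (hY : μH[s] Y = 0) :
    ∃ (U : ℕ × ℕ → Set (Fin n → ℝ)) (ω : ℕ × ℕ → ℝ), (∀ i, 0 < ω i) ∧ Summable ω ∧
      (∀ i, ∀ x ∈ U i, ∀ y ∈ U i, dist x y ^ s ≤ ω i) ∧
      ∀ z ∈ Y, ∀ δ > 0, ∃ i, z ∈ U i ∧ ω i < δ := by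
  have hcov : ∀ m : ℕ, ∃ t : ℕ → Set (Fin n → ℝ), Y ⊆ ⋃ i, t i ∧
      ∑' i, Metric.ediam (t i) ^ s ≤ ENNReal.ofReal ((1 / 2) ^ m) := by
    intro m
    rw [Measure.hausdorffMeasure_apply] at hY
    have h1 : (⨅ (t : ℕ → Set (Fin n → ℝ)) (_ : Y ⊆ ⋃ i, t i) (_ : ∀ i, Metric.ediam (t i) ≤ 1),
        ∑' i, ⨆ _ : (t i).Nonempty, Metric.ediam (t i) ^ s) = 0 := by
      refine le_antisymm ?_ zero_le
      rw [← hY]
      exact le_iSup₂_of_le (1 : ℝ≥0∞) one_pos le_rfl
    have h2 : (⨅ (t : ℕ → Set (Fin n → ℝ)) (_ : Y ⊆ ⋃ i, t i) (_ : ∀ i, Metric.ediam (t i) ≤ 1),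
        ∑' i, ⨆ _ : (t i).Nonempty, Metric.ediam (t i) ^ s) < ENNReal.ofReal ((1 / 2) ^ m) := by
      rw [h1]
      exact ENNReal.ofReal_pos.2 (by positivity)
    simp only [iInf_lt_iff] at h2
    obtain ⟨t, ht, -, hlt⟩ := h2
    refine ⟨t, ht, le_trans (ENNReal.tsum_le_tsum fun i => ?_) hlt.le⟩
    rcases (t i).eq_empty_or_nonempty with h | h
    · simp [h, hs]
    · simp [h]
  choose t ht hsum using hcov
  let e : ℕ × ℕ → ℝ≥0∞ := fun i => Metric.ediam (t i.1 i.2) ^ s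
  have he : ∀ i : ℕ × ℕ, e i ≤ ENNReal.ofReal ((1 / 2) ^ i.1) := fun i =>
    (ENNReal.le_tsum (f := fun j => Metric.ediam (t i.1 j) ^ s) i.2).trans (hsum i.1)
  have hefin : ∀ i, e i ≠ ∞ := fun i => ne_top_of_le_ne_top ENNReal.ofReal_ne_top (he i)
  have hgeo : Summable fun m : ℕ => ((1 : ℝ) / 2) ^ m := summable_geometric_two
  have htot : ∑' i, e i ≠ ∞ := by
    rw [ENNReal.tsum_prod']
    exact ne_top_of_le_ne_top hgeo.tsum_ofReal_ne_top (ENNReal.tsum_le_tsum hsum)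
  refine ⟨fun i => t i.1 i.2, fun i => (e i).toReal + (1 / 2) ^ i.1 * (1 / 2) ^ i.2, ?_, ?_, ?_, ?_⟩
  · intro i
    positivity
  · apply Summable.add (ENNReal.summable_toReal htot)
    exact hgeo.mul_of_nonneg hgeo (fun _ => by positivity) (fun _ => by positivity)
  · intro i x hx y hy
    have h1 : edist x y ^ s ≤ e i :=
      ENNReal.rpow_le_rpow (Metric.edist_le_ediam_of_mem hx hy) hs.le
    have h2 := ENNReal.toReal_mono (hefin i) h1
    rw [← ENNReal.toReal_rpow, ← dist_edist] at h2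
    have : (0 : ℝ) < (1 / 2) ^ i.1 * (1 / 2) ^ i.2 := by positivity
    simp only
    linarith
  · intro z hz δ hδ
    obtain ⟨m, hm⟩ := exists_pow_lt_of_lt_one (by positivity : 0 < δ / 2)
      (by norm_num : (1 : ℝ) / 2 < 1)
    obtain ⟨i, hi⟩ := Set.mem_iUnion.1 (ht m hz)
    refine ⟨(m, i), hi, ?_⟩
    have h1 : (e (m, i)).toReal ≤ (1 / 2) ^ m :=
      ENNReal.toReal_le_of_le_ofReal (by positivity) (he (m, i))
    have h2 : ((1 : ℝ) / 2) ^ i ≤ 1 := pow_le_one₀ (by norm_num) (by norm_num)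
    have h3 : (0 : ℝ) < (1 / 2) ^ m := by positivity
    simp only
    nlinarith

/-- The closed dyadic cube of level `l` with integer corner `p`. -/
def cyl {n : ℕ} (l : ℕ) (p : Fin n → ℤ) : Set (Fin n → ℝ) :=
  {z | ∀ k, (p k : ℝ) ≤ 2 ^ l * z k ∧ 2 ^ l * z k ≤ p k + 1}

/-- Appending a block of `m` binary digits in each coordinate. -/
def child {n : ℕ} (m : ℕ) (p : Fin n → ℤ) (u : Fin n → Fin (2 ^ m)) : Fin n → ℤ :=
  fun k => 2 ^ m * p k + ((u k : ℕ) : ℤ)

theorem child_injective {n : ℕ} (m : ℕ) (p : Fin n → ℤ) : Function.Injective (child m p) := by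
  intro u v h
  funext k
  have := congrFun h k
  simp only [child, add_right_inj, Nat.cast_inj] at this
  exact Fin.ext this

theorem cyl_child_subset {n : ℕ} (l m : ℕ) (p : Fin n → ℤ) (u : Fin n → Fin (2 ^ m)) :
    cyl (l + m) (child m p u) ⊆ cyl l p := by
  intro z hz k
  obtain ⟨h1, h2⟩ := hz k
  simp only [child] at h1 h2
  push_cast at h1 h2
  have h3 : ((u k : ℕ) : ℝ) + 1 ≤ 2 ^ m := by exact_mod_cast (u k).2
  have h4 : (0 : ℝ) ≤ ((u k : ℕ) : ℝ) := by positivity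
  have hp : (0 : ℝ) < 2 ^ m := by positivity
  rw [pow_add, mul_comm ((2 : ℝ) ^ l), mul_assoc] at h1 h2
  constructor
  · apply le_of_mul_le_mul_left _ hp
    linarith
  · apply le_of_mul_le_mul_left _ hp
    linarith

theorem card_meet_le {n : ℕ} (l : ℕ) (U : Set (Fin n → ℝ))
    (hU : ∀ x ∈ U, ∀ y ∈ U, dist x y ≤ (1 / 2) ^ l) (T : Finset (Fin n → ℤ))
    (hT : ∀ q ∈ T, (U ∩ cyl l q).Nonempty) : T.card ≤ 4 ^ n := by
  classical
  rcases T.eq_empty_or_nonempty with rfl | ⟨q₀, hq₀⟩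
  · simp
  obtain ⟨z₀, hz₀, -⟩ := hT q₀ hq₀
  have hsub : T ⊆ Fintype.piFinset
      fun k => Finset.Icc (⌊2 ^ l * z₀ k⌋ - 2) (⌊2 ^ l * z₀ k⌋ + 1) := by
    intro q hq
    obtain ⟨z, hz, hzq⟩ := hT q hq
    rw [Fintype.mem_piFinset]
    intro k
    obtain ⟨h1, h2⟩ := hzq k
    have h3 := (dist_le_pi_dist z z₀ k).trans (hU z hz z₀ hz₀)
    have hp : (0 : ℝ) < 2 ^ l := by positivity
    rw [Real.dist_eq, one_div, inv_pow, ← one_div, le_div_iff₀ hp] at h3
    have h4 : |2 ^ l * z k - 2 ^ l * z₀ k| ≤ 1 := by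
      rw [← mul_sub, abs_mul, abs_of_pos hp, mul_comm]
      exact h3
    rw [abs_le] at h4
    have h5 := Int.floor_le (2 ^ l * z₀ k)
    have h6 := Int.lt_floor_add_one (2 ^ l * z₀ k)
    rw [Finset.mem_Icc]
    constructor
    · have : ((⌊2 ^ l * z₀ k⌋ - 2 : ℤ) : ℝ) ≤ (q k : ℝ) := by
        push_cast
        linarith [h4.1]
      exact_mod_cast this
    · have : (q k : ℝ) < ((⌊2 ^ l * z₀ k⌋ + 2 : ℤ) : ℝ) := by
        push_cast
        linarith [h4.2]
      have : q k < ⌊2 ^ l * z₀ k⌋ + 2 := by exact_mod_cast this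
      omega
  refine (card_le_card hsub).trans (le_of_eq ?_)
  rw [Fintype.card_piFinset]
  have : ∀ k, (Finset.Icc (⌊2 ^ l * z₀ k⌋ - 2) (⌊2 ^ l * z₀ k⌋ + 1)).card = 4 := by
    intro k
    rw [Int.card_Icc]
    omega
  simp [this]

theorem eventually_lt_of_ratio (x τ t : ℕ → ℝ) (β : ℝ) (hβ : 0 ≤ β) (hτ : ∀ j, 0 < τ j)
    (ht : ∀ j, 0 < t j) (h1 : ∀ᶠ j in atTop, t j * x (j + 1) ≤ β * x j)
    (h2 : ∀ᶠ j in atTop, 2 * β * τ (j + 1) ≤ t j * τ (j + 2)) :
    ∀ᶠ j in atTop, x j < τ (j + 1) := by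
  obtain ⟨J, hJ⟩ := eventually_atTop.1 (h1.and h2)
  set c := |x J| / τ (J + 1) with hc
  have hc0 : 0 ≤ c := div_nonneg (abs_nonneg _) (hτ _).le
  have key : ∀ d, x (J + d) ≤ c * (1 / 2) ^ d * τ (J + d + 1) := by
    intro d
    induction d with
    | zero =>
      simp only [add_zero, pow_zero, mul_one, hc]
      rw [div_mul_cancel₀ _ (hτ _).ne']
      exact le_abs_self _
    | succ d ih =>
      obtain ⟨e1, e2⟩ := hJ (J + d) (by omega)
      apply le_of_mul_le_mul_left _ (ht (J + d))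
      have e3 : 0 ≤ c * (1 / 2) ^ (d + 1) := by positivity
      calc t (J + d) * x (J + (d + 1)) ≤ β * x (J + d) := e1
        _ ≤ β * (c * (1 / 2) ^ d * τ (J + d + 1)) := mul_le_mul_of_nonneg_left ih hβ
        _ = c * (1 / 2) ^ (d + 1) * (2 * β * τ (J + d + 1)) := by ring
        _ ≤ c * (1 / 2) ^ (d + 1) * (t (J + d) * τ (J + d + 2)) :=
            mul_le_mul_of_nonneg_left e2 e3
        _ = t (J + d) * (c * (1 / 2) ^ (d + 1) * τ (J + (d + 1) + 1)) := by
            rw [show J + (d + 1) + 1 = J + d + 2 by ring]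
            ring
  have hlim : Tendsto (fun d : ℕ => c * ((1 : ℝ) / 2) ^ d) atTop (𝓝 (c * 0)) :=
    (tendsto_pow_atTop_nhds_zero_of_lt_one (by norm_num) (by norm_num)).const_mul c
  rw [mul_zero] at hlim
  obtain ⟨D, hD⟩ := eventually_atTop.1 (hlim.eventually (gt_mem_nhds one_pos))
  refine eventually_atTop.2 ⟨J + D, fun j hj => ?_⟩
  obtain ⟨d, rfl⟩ := Nat.exists_eq_add_of_le (le_trans (Nat.le_add_right J D) hj)
  have := hD d (by omega)
  have h3 := hτ (J + d + 1)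
  have := key d
  nlinarith

theorem exists_predictor {n : ℕ} {s : ℝ} (hs : 0 < s) {Y : Set (Fin n → ℝ)} (hY : μH[s] Y = 0)
    (M m t : ℕ → ℕ) (hM : ∀ j, M (j + 1) = M j + m j) (hm : ∀ j, 0 < m j) (ht : ∀ j, 0 < t j)
    (hgrow : ∀ᶠ j in atTop,
      2 * 4 ^ n * ((1 / 2 : ℝ) ^ M (j + 1)) ^ s ≤ t j * ((1 / 2 : ℝ) ^ M (j + 2)) ^ s) :
    ∃ S : (j : ℕ) → (Fin n → ℤ) → Finset (Fin n → Fin (2 ^ m j)), (∀ j p, (S j p).card ≤ t j) ∧
      ∀ z ∈ Y, ∀ (N : ℕ → Fin n → ℤ) (u : (j : ℕ) → Fin n → Fin (2 ^ m j)),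
        (∀ j, N (j + 1) = child (m j) (N j) (u j)) → (∀ j, z ∈ cyl (M j) (N j)) →
          ∃ᶠ j in atTop, u j ∈ S j (N j) := by
  classical
  obtain ⟨U, ω, hω, hsum, hdiam, hcov⟩ := exists_cover hs hY
  let τ : ℕ → ℝ := fun j => ((1 / 2 : ℝ) ^ M j) ^ s
  have hτ : ∀ j, 0 < τ j := fun j => by positivity
  have hτmono : ∀ j, τ (j + 1) ≤ τ j := fun j => by
    apply Real.rpow_le_rpow (by positivity) _ hs.le
    apply pow_le_pow_of_le_one (by norm_num) (by norm_num)
    rw [hM]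
    omega
  have hτanti : Antitone τ := antitone_nat_of_succ_le hτmono
  have hMj : ∀ j, j ≤ M j := by
    intro j
    induction j with
    | zero => omega
    | succ j ih =>
      rw [hM]
      have := hm j
      omega
  have hτlim : Tendsto τ atTop (𝓝 0) := by
    have h1 : Tendsto (fun j => ((1 : ℝ) / 2) ^ M j) atTop (𝓝 0) :=
      (tendsto_pow_atTop_nhds_zero_of_lt_one (by norm_num) (by norm_num)).comp
        (tendsto_atTop_mono hMj tendsto_id)
    have := h1.rpow_const (p := s) (Or.inr hs.le)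
    rwa [Real.zero_rpow hs.ne'] at this
  let v : ℕ → (Fin n → ℤ) → ℕ × ℕ → ℝ := fun j p i =>
    if ω i ≤ τ j ∧ (U i ∩ cyl (M j) p).Nonempty then ω i else 0
  have hv0 : ∀ j p i, 0 ≤ v j p i := fun j p i => by
    simp only [v]
    split_ifs
    · exact (hω i).le
    · exact le_rfl
  have hv1 : ∀ j p i, v j p i ≤ ω i := fun j p i => by
    simp only [v]
    split_ifs
    · exact le_rfl
    · exact (hω i).le
  have hvs : ∀ j p, Summable (v j p) := fun j p =>
    Summable.of_nonneg_of_le (hv0 j p) (hv1 j p) hsum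
  let w : ℕ → (Fin n → ℤ) → ℝ := fun j p => ∑' i, v j p i
  have hw0 : ∀ j p, 0 ≤ w j p := fun j p => tsum_nonneg (hv0 j p)
  have hchild : ∀ j p, ∑ u : Fin n → Fin (2 ^ m j), w (j + 1) (child (m j) p u)
      ≤ 4 ^ n * w j p := by
    intro j p
    simp only [w]
    rw [← Summable.tsum_finsetSum (fun u _ => hvs (j + 1) (child (m j) p u)),
      ← tsum_mul_left]
    apply Summable.tsum_le_tsum _ (summable_sum fun u _ => hvs (j + 1) (child (m j) p u))
      ((hvs j p).mul_left _)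
    intro i
    simp only [v]
    rw [← sum_filter, sum_const, nsmul_eq_mul]
    set T := (univ : Finset (Fin n → Fin (2 ^ m j))).filter fun u =>
      ω i ≤ τ (j + 1) ∧ (U i ∩ cyl (M (j + 1)) (child (m j) p u)).Nonempty with hT
    rcases T.eq_empty_or_nonempty with h | ⟨u, hu⟩
    · rw [h, card_empty, Nat.cast_zero, zero_mul]
      exact mul_nonneg (by positivity) (hv0 j p i)
    · obtain ⟨hu1, z, hz1, hz2⟩ := (mem_filter.1 hu).2
      rw [hM] at hz2
      rw [if_pos ⟨hu1.trans (hτmono j), z, hz1, cyl_child_subset _ _ _ _ hz2⟩]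
      apply mul_le_mul_of_nonneg_right _ (hω i).le
      have hc : (T.image (child (m j) p)).card ≤ 4 ^ n := by
        apply card_meet_le (M (j + 1)) (U i)
        · intro x hx y hy
          have := (hdiam i x hx y hy).trans hu1
          exact (Real.rpow_le_rpow_iff dist_nonneg (by positivity) hs).1 this
        · intro q hq
          obtain ⟨u', hu', rfl⟩ := mem_image.1 hq
          exact (mem_filter.1 hu').2.2
      rw [card_image_of_injective _ (child_injective _ _)] at hc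
      exact_mod_cast hc
  refine ⟨fun j p => univ.filter fun u =>
    4 ^ n * w j p < t j * w (j + 1) (child (m j) p u), ?_, ?_⟩
  · intro j p
    set T := (univ : Finset (Fin n → Fin (2 ^ m j))).filter fun u =>
      4 ^ n * w j p < t j * w (j + 1) (child (m j) p u) with hT
    show T.card ≤ t j
    by_contra hlt
    push Not at hlt
    have hne : T.Nonempty := card_pos.1 (by omega)
    have h1 : ∑ _u ∈ T, 4 ^ n * w j p < ∑ u ∈ T, t j * w (j + 1) (child (m j) p u) :=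
      sum_lt_sum_of_nonempty hne fun u hu => (mem_filter.1 hu).2
    rw [sum_const, nsmul_eq_mul, ← mul_sum] at h1
    have h2 : ∑ u ∈ T, w (j + 1) (child (m j) p u) ≤ 4 ^ n * w j p :=
      (sum_le_sum_of_subset_of_nonneg (subset_univ T) fun u _ _ => hw0 _ _).trans (hchild j p)
    have h3 : (t j : ℝ) ≤ T.card := by exact_mod_cast hlt.le
    have h4 : 0 ≤ 4 ^ n * w j p := mul_nonneg (by positivity) (hw0 j p)
    have h5 : (0 : ℝ) ≤ t j := by positivity
    nlinarith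
  · intro z hz N u hN hzN
    by_contra hcon
    rw [not_frequently] at hcon
    have h1 : ∀ᶠ j in atTop, (t j : ℝ) * w (j + 1) (N (j + 1)) ≤ 4 ^ n * w j (N j) := by
      filter_upwards [hcon] with j hj
      rw [mem_filter, not_and, not_lt] at hj
      rw [hN]
      exact hj (mem_univ _)
    have h2 := eventually_lt_of_ratio (fun j => w j (N j)) τ (fun j => t j) (4 ^ n)
      (by positivity) hτ (fun j => by exact_mod_cast ht j) h1 hgrow
    obtain ⟨J, hJ⟩ := eventually_atTop.1 h2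
    obtain ⟨i, hi1, hi2⟩ := hcov z hz (τ J) (hτ J)
    have hex : ∃ j, τ j < ω i := (hτlim.eventually (gt_mem_nhds (hω i))).exists
    have hj0 := Nat.find_spec hex
    have hJlt : J < Nat.find hex := by
      by_contra hle
      push Not at hle
      have := hτanti hle
      linarith
    obtain ⟨j, hj⟩ : ∃ j, Nat.find hex = j + 1 := ⟨Nat.find hex - 1, by omega⟩
    have hj1 : ω i ≤ τ j := not_lt.1 (Nat.find_min hex (by omega))
    rw [hj] at hj0
    have hj2 := hJ j (by omega)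
    have hj3 : v j (N j) i ≤ w j (N j) :=
      (hvs j (N j)).le_tsum i fun k _ => hv0 j (N j) k
    have hj4 : v j (N j) i = ω i := if_pos ⟨hj1, z, hi1, hzN j⟩
    linarith

theorem exists_point {n : ℕ} (M m : ℕ → ℕ) (hM : ∀ j, M (j + 1) = M j + m j)
    (N : ℕ → Fin n → ℤ) (u : (j : ℕ) → Fin n → Fin (2 ^ m j))
    (hN : ∀ j, N (j + 1) = child (m j) (N j) (u j)) : ∃ z, ∀ j, z ∈ cyl (M j) (N j) := by
  have hcl : ∀ j, IsClosed (cyl (M j) (N j)) := by
    intro j
    have : cyl (M j) (N j) = ⋂ k, ({z : Fin n → ℝ | (N j k : ℝ) ≤ 2 ^ M j * z k} ∩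
        {z : Fin n → ℝ | 2 ^ M j * z k ≤ N j k + 1}) := by
      ext z
      simp [cyl]
    rw [this]
    exact isClosed_iInter fun k => (isClosed_le (by fun_prop) (by fun_prop)).inter
      (isClosed_le (by fun_prop) (by fun_prop))
  have hne : ∀ j, (cyl (M j) (N j)).Nonempty := by
    intro j
    refine ⟨fun k => N j k / 2 ^ M j, fun k => ?_⟩
    have : (2 : ℝ) ^ M j * (N j k / 2 ^ M j) = N j k := by field_simp
    simp only [this]
    constructor <;> linarith
  have hcpt : IsCompact (cyl (M 0) (N 0)) := by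
    apply (isCompact_Icc (a := fun k => (N 0 k : ℝ) / 2 ^ M 0)
      (b := fun k => ((N 0 k : ℝ) + 1) / 2 ^ M 0)).of_isClosed_subset (hcl 0)
    intro z hz
    have hp : (0 : ℝ) < 2 ^ M 0 := by positivity
    constructor
    · intro k
      rw [div_le_iff₀ hp, mul_comm]
      exact (hz k).1
    · intro k
      rw [le_div_iff₀ hp, mul_comm]
      exact (hz k).2
  obtain ⟨z, hz⟩ := IsCompact.nonempty_iInter_of_sequence_nonempty_isCompact_isClosed
    (fun j => cyl (M j) (N j))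
    (fun j => by
      rw [hM, hN]
      exact cyl_child_subset _ _ _ _) hne hcpt hcl
  exact ⟨z, Set.mem_iInter.1 hz⟩

end Pool.Agent.Lib.MP_eebbd0_lc
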