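import Pool.Agent.Lib.MP_eebbd0_lc.BDefs
import Pool.Agent.Lib.MP_eebbd0_lc.Predict

/-!
Binary expansions pull null sets of a gauge measure back to weighted null sets.
-/

namespace Pool.Agent.Lib.MP_eebbd0_lc.Band

open Filter Topology MeasureTheory
open scoped ENNReal

/-- The integer corner of the dyadic cube given by the first `l` digits. -/
def bval_corner {n : ℕ} (z : ℕ → Fin n → Bool) : ℕ → Fin n → ℤ
  | 0 => fun _ => 0
  | l + 1 => fun i => 2 * bval_corner z l i + if z l i then 1 else 0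

theorem bval_inj {n : ℕ} {z z' : ℕ → Fin n → Bool} :
    ∀ l, bval_corner z l = bval_corner z' l → ∀ k < l, z k = z' k := by
  intro l
  induction l with
  | zero => intro _ k hk; omega
  | succ l ih =>
    intro h k hk
    have h1 : ∀ i, bval_corner z l i = bval_corner z' l i ∧ z l i = z' l i := fun i => by
      have := congrFun h i
      simp only [bval_corner] at this
      cases h2 : z l i <;> cases h3 : z' l i <;> simp [h2, h3] at this ⊢ <;> omega
    rcases Nat.lt_succ_iff_lt_or_eq.1 hk with hk | rfl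
    · exact ih (funext fun i => (h1 i).1) k hk
    · exact funext fun i => (h1 i).2

theorem bval_point {n : ℕ} (z : ℕ → Fin n → Bool) :
    ∃ y : Fin n → ℝ, ∀ l, y ∈ cyl l (bval_corner z l) := by
  refine exists_point (fun j => j) (fun _ => 1) (fun _ => rfl) (bval_corner z)
    (fun j k => if z j k then ⟨1, by norm_num⟩ else ⟨0, by norm_num⟩) fun j => ?_
  funext k
  simp only [bval_corner, child]
  cases z j k <;> simp

theorem bval_cell {n : ℕ} (U : Set (EuclideanSpace ℝ (Fin n))) (l : ℕ)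
    (hU : Metric.ediam U ≤ ENNReal.ofReal ((1 / 2) ^ l)) :
    ∃ b : Fin n → ℤ, ∀ y ∈ U, ∀ q : Fin n → ℤ, y.ofLp ∈ cyl l q →
      ∃ e : Fin n → Fin 4, q = fun k => b k + (e k : ℕ) := by
  rcases U.eq_empty_or_nonempty with rfl | ⟨z₀, hz₀⟩
  · exact ⟨0, fun y hy => hy.elim⟩
  refine ⟨fun k => ⌊2 ^ l * z₀.ofLp k⌋ - 2, fun y hy q hq => ?_⟩
  have key : ∀ k, ∃ e : Fin 4, q k = ⌊2 ^ l * z₀.ofLp k⌋ - 2 + (e : ℕ) := by
    intro k
    obtain ⟨h1, h2⟩ := hq k
    have h0 : dist y z₀ ≤ (1 / 2) ^ l :=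
      (edist_le_ofReal (by positivity)).1 ((Metric.edist_le_ediam_of_mem hy hz₀).trans hU)
    have h3 := (PiLp.dist_apply_le y z₀ k).trans h0
    have hp : (0 : ℝ) < 2 ^ l := by positivity
    rw [Real.dist_eq, one_div, inv_pow, ← one_div, le_div_iff₀ hp] at h3
    have h4 : |2 ^ l * y.ofLp k - 2 ^ l * z₀.ofLp k| ≤ 1 := by
      rw [← mul_sub, abs_mul, abs_of_pos hp, mul_comm]
      exact h3
    rw [abs_le] at h4
    have h5 := Int.floor_le (2 ^ l * z₀.ofLp k)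
    have h6 := Int.lt_floor_add_one (2 ^ l * z₀.ofLp k)
    have h7 : ⌊2 ^ l * z₀.ofLp k⌋ - 2 ≤ q k := by
      have : ((⌊2 ^ l * z₀.ofLp k⌋ - 2 : ℤ) : ℝ) ≤ (q k : ℝ) := by
        push_cast
        linarith [h4.1]
      exact_mod_cast this
    have h8 : q k < ⌊2 ^ l * z₀.ofLp k⌋ + 2 := by
      have : (q k : ℝ) < ((⌊2 ^ l * z₀.ofLp k⌋ + 2 : ℤ) : ℝ) := by
        push_cast
        linarith [h4.2]
      exact_mod_cast this
    refine ⟨⟨(q k - (⌊2 ^ l * z₀.ofLp k⌋ - 2)).toNat, by omega⟩, ?_⟩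
    simp only
    omega
  choose e he using key
  exact ⟨e, funext he⟩

theorem bval_level {γ : ℕ → ℝ≥0∞} {g : ℝ≥0∞ → ℝ≥0∞} {C : ℕ} (hγ : Tendsto γ atTop (𝓝 0))
    {N : ℕ} (hN : ∀ l, N ≤ l → ∀ t : ℝ, (1 / 2) ^ (l + 1) < t → t ≤ (1 / 2) ^ l →
      γ l ≤ C * g (ENNReal.ofReal t)) {X : Type} [PseudoEMetricSpace X] (U : Set X)
    (hU : Metric.ediam U ≤ ENNReal.ofReal ((1 / 2) ^ N)) {η : ℝ≥0∞} (hη : 0 < η) :
    ∃ l, N ≤ l ∧ Metric.ediam U ≤ ENNReal.ofReal ((1 / 2) ^ l) ∧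
      γ l ≤ C * (⨆ _ : U.Nonempty, g (Metric.ediam U)) + η := by
  by_cases h0 : Metric.ediam U = 0
  · obtain ⟨l, h1, h2⟩ := ((eventually_ge_atTop N).and (hγ.eventually (gt_mem_nhds hη))).exists
    exact ⟨l, h1, by simp [h0], h2.le.trans le_add_self⟩
  have hne : U.Nonempty := by
    rcases U.eq_empty_or_nonempty with rfl | h
    · exact absurd Metric.ediam_empty h0
    · exact h
  have htop : Metric.ediam U ≠ ∞ := ne_top_of_le_ne_top ENNReal.ofReal_ne_top hU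
  have hd0 : 0 < (Metric.ediam U).toReal := ENNReal.toReal_pos h0 htop
  have hdN : (Metric.ediam U).toReal ≤ (1 / 2) ^ N :=
    ENNReal.toReal_le_of_le_ofReal (by positivity) hU
  obtain ⟨l, h1, h2⟩ := exists_nat_pow_near_of_lt_one hd0
    (hdN.trans (pow_le_one₀ (by norm_num) (by norm_num))) (by norm_num : (0 : ℝ) < 1 / 2)
    (by norm_num)
  have hl : N ≤ l := Nat.lt_succ_iff.1
    ((pow_lt_pow_iff_right_of_lt_one₀ (by norm_num) (by norm_num)).1 (h1.trans_le hdN))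
  refine ⟨l, hl, ?_, ?_⟩
  · rw [← ENNReal.ofReal_toReal htop]
    exact ENNReal.ofReal_le_ofReal h2
  · have := hN l hl _ h1 h2
    rw [ENNReal.ofReal_toReal htop] at this
    rw [iSup_pos hne]
    exact this.trans le_self_add

theorem exists_val (n : ℕ) : ∃ val : (ℕ → Fin n → Bool) → EuclideanSpace ℝ (Fin n),
    ∀ (γ : ℕ → ℝ≥0∞) (g : ℝ≥0∞ → ℝ≥0∞) (C : ℕ), Tendsto γ atTop (𝓝 0) →
      (∀ᶠ l in atTop, ∀ t : ℝ, (1 / 2) ^ (l + 1) < t → t ≤ (1 / 2) ^ l →
        γ l ≤ C * g (ENNReal.ofReal t)) →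
        ∀ Y, (Measure.mkMetric g : Measure (EuclideanSpace ℝ (Fin n))) Y = 0 →
          Null γ (val ⁻¹' Y) := by
  choose v hv using fun z : ℕ → Fin n → Bool => bval_point z
  refine ⟨fun z => WithLp.toLp 2 (v z), fun γ g C hγ hg Y hY ε hε N => ?_⟩
  obtain ⟨N₀, hN₀⟩ := eventually_atTop.1 hg
  obtain ⟨δ, hδ, hδε⟩ := ENNReal.exists_pos_mul_lt
    (a := (4 ^ n * (C + 1) : ℝ≥0∞)) (by finiteness) hε.ne'
  obtain ⟨η, hη, hηδ⟩ := ENNReal.exists_pos_sum_of_countable' hδ.ne' ℕ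
  rw [Measure.mkMetric_apply] at hY
  have h1 : (⨅ (t : ℕ → Set (EuclideanSpace ℝ (Fin n))) (_ : Y ⊆ Set.iUnion t)
      (_ : ∀ i, Metric.ediam (t i) ≤ ENNReal.ofReal ((1 / 2) ^ max N N₀)),
      ∑' i, ⨆ _ : (t i).Nonempty, g (Metric.ediam (t i))) < δ := by
    refine lt_of_le_of_lt ?_ hδ
    rw [← hY]
    exact le_iSup₂_of_le (ENNReal.ofReal ((1 / 2) ^ max N N₀))
      (ENNReal.ofReal_pos.2 (by positivity)) le_rfl
  simp only [iInf_lt_iff] at h1
  obtain ⟨t, ht, hd, hsum⟩ := h1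
  choose l hl1 hl2 hl3 using fun i => bval_level hγ
    (fun l hl => hN₀ l ((le_max_right N N₀).trans hl)) (t i) (hd i) (hη i)
  choose b hb using fun i => bval_cell (t i) (l i) (hl2 i)
  refine ⟨ℕ × (Fin n → Fin 4), inferInstance, fun p => l p.1,
    fun p => Function.invFun (fun z => bval_corner z (l p.1)) fun k => b p.1 k + (p.2 k : ℕ),
    fun p => (le_max_left N N₀).trans (hl1 p.1), ?_, fun z hz => ?_⟩
  · rw [ENNReal.tsum_prod']
    simp only [tsum_fintype, Finset.sum_const, Finset.card_univ, Fintype.card_pi, Fintype.card_fin,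
      Finset.prod_const, nsmul_eq_mul, Nat.cast_pow, Nat.cast_ofNat]
    rw [ENNReal.tsum_mul_left]
    refine le_trans ?_ hδε.le
    have h2 : ∑' i, γ (l i) ≤ C * δ + δ := by
      refine (ENNReal.tsum_le_tsum hl3).trans ?_
      rw [ENNReal.tsum_add, ENNReal.tsum_mul_left]
      exact add_le_add (mul_le_mul_right hsum.le _) hηδ.le
    calc 4 ^ n * ∑' i, γ (l i) ≤ 4 ^ n * (C * δ + δ) := mul_le_mul_right h2 _
      _ = δ * (4 ^ n * (C + 1)) := by ring
  · obtain ⟨i, hi⟩ := Set.mem_iUnion.1 (ht hz)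
    obtain ⟨e, he⟩ := hb i _ hi _ (hv z (l i))
    refine ⟨(i, e), bval_inj (l i) ?_⟩
    rw [he]
    exact (Function.invFun_eq (f := fun z => bval_corner z (l i)) ⟨z, he⟩).symm

end Pool.Agent.Lib.MP_eebbd0_lc.Band
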