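import Pool.Agent.Lib.MP_eebbd0_lc.BIter
import Pool.Agent.Lib.MP_eebbd0_lc.BDig
import Pool.Agent.Lib.MP_eebbd0_lc.BVal
import Pool.Agent.Lib.MP_eebbd0_lc.BLow
import Pool.Agent.Lib.MP_eebbd0_lc.BUp

/-!
Transfer of uniformity and covering witnesses between gauge measures on Euclidean spaces.
-/

namespace Pool.Agent.Lib.MP_eebbd0_lc.Band

open Filter Topology MeasureTheory Cardinal
open scoped ENNReal

/-- The class of measures under consideration: the measures of a gauge function in the band. -/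
def InBand (n : ℕ) (μ : Measure (EuclideanSpace ℝ (Fin n))) : Prop :=
  ∃ (f : ℝ≥0∞ → ℝ≥0∞) (k m : ℕ) (ε : ℝ), 0 < n ∧ 0 < ε ∧ f 0 = 0 ∧
    (∀ᶠ t : ℝ in 𝓝[>] 0,
      ENNReal.ofReal (t ^ n * Real.log^[k] (1 / t)) ≤ f (ENNReal.ofReal t)) ∧
    (∀ᶠ t : ℝ in 𝓝[>] 0, f (ENNReal.ofReal t) ≤
      ENNReal.ofReal (Real.exp (-Real.exp^[m] (Real.log^[m + 1] (1 / t) ^ ε)))) ∧
    μ = Measure.mkMetric f

theorem inBand_hausdorff {n : ℕ} {r : ℝ} (hr : 0 < r) (hrn : r < n) :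
    InBand n (Measure.hausdorffMeasure r) :=
  ⟨fun t => t ^ r, 1, 0, 1 / 2, by exact_mod_cast hr.trans hrn, by norm_num,
    ENNReal.zero_rpow_of_pos hr, rpow_up hr hrn, rpow_low hr, rfl⟩

theorem InBand.countable {n : ℕ} {μ : Measure (EuclideanSpace ℝ (Fin n))} (h : InBand n μ)
    {X : Set (EuclideanSpace ℝ (Fin n))} (hX : X.Countable) : μ X = 0 := by
  obtain ⟨f, -, -, -, -, -, hf, -, -, rfl⟩ := h
  exact mkMetric_finite hf hX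

/-- The chain of reductions between two measures of the class. -/
theorem exists_chain {p n : ℕ} {μ : Measure (EuclideanSpace ℝ (Fin p))}
    {ν : Measure (EuclideanSpace ℝ (Fin n))} (hμ : InBand p μ) (hν : InBand n ν) :
    ∃ (φ γ : ℕ → ℝ≥0∞) (dig : EuclideanSpace ℝ (Fin p) → ℕ → Fin p → Bool)
      (val : (ℕ → Fin n → Bool) → EuclideanSpace ℝ (Fin n)),
      (∀ Z, Null φ Z → μ (dig ⁻¹' Z) = 0) ∧ (∀ Y, ν Y = 0 → Null γ (val ⁻¹' Y)) ∧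
        Tr (Fin p → Bool) φ (Fin n → Bool) γ := by
  obtain ⟨f, -, m, ε, -, hε, hf0, -, hf, rfl⟩ := hμ
  obtain ⟨g, k, -, -, hn, -, -, hg, -, rfl⟩ := hν
  obtain ⟨φ, hφ, hφf⟩ := exists_low p m hε hf
  obtain ⟨d, C, hd, htr⟩ := tr_iter p n k hφ
  obtain ⟨dig, hdig⟩ := exists_dig p
  obtain ⟨val, hval⟩ := exists_val n
  exact ⟨φ, wt n d, dig, val, hdig φ f hf0 hφf,
    hval (wt n d) g (2 ^ n) (wt_tendsto hn k hd) (wt_le_gauge n k hd hg), htr⟩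

theorem non_transfer {p n : ℕ} {μ : Measure (EuclideanSpace ℝ (Fin p))}
    {ν : Measure (EuclideanSpace ℝ (Fin n))} (hμ : InBand p μ) (hν : InBand n ν)
    {X : Set (EuclideanSpace ℝ (Fin p))} (hX : μ X ≠ 0) :
    ∃ Y : Set (EuclideanSpace ℝ (Fin n)), ν Y ≠ 0 ∧ #Y ≤ #X := by
  obtain ⟨φ, γ, dig, val, h1, h2, h3⟩ := exists_chain hμ hν
  have hinf : ℵ₀ ≤ #X := by
    by_contra h
    exact hX (hμ.countable (le_aleph0_iff_set_countable.1 (not_le.1 h).le))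
  obtain ⟨Z, hZ, hc⟩ := h3.1 #X hinf ⟨dig '' X, fun h =>
    hX (measure_mono_null (Set.subset_preimage_image dig X) (h1 _ h)), mk_image_le⟩
  exact ⟨val '' Z, fun h => hZ ((h2 _ h).mono (Set.subset_preimage_image val Z)),
    mk_image_le.trans hc⟩

theorem cov_transfer {p n : ℕ} {μ : Measure (EuclideanSpace ℝ (Fin p))}
    {ν : Measure (EuclideanSpace ℝ (Fin n))} (hμ : InBand p μ) (hν : InBand n ν)
    {𝒜 : Set (Set (EuclideanSpace ℝ (Fin n)))} (h0 : ∀ A ∈ 𝒜, ν A = 0) (hc : ⋃₀ 𝒜 = Set.univ) :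
    ∃ ℬ : Set (Set (EuclideanSpace ℝ (Fin p))), (∀ B ∈ ℬ, μ B = 0) ∧ ⋃₀ ℬ = Set.univ ∧
      #ℬ ≤ #𝒜 := by
  obtain ⟨φ, γ, dig, val, h1, h2, h3⟩ := exists_chain hμ hν
  obtain ⟨ι, Z, hι, hZ, hcov⟩ := h3.2 #𝒜 ⟨𝒜, fun A => val ⁻¹' A.1, le_rfl,
    fun A => h2 _ (h0 A.1 A.2), fun z => by
      obtain ⟨A, hA, hz⟩ := Set.sUnion_eq_univ_iff.1 hc (val z)
      exact ⟨⟨A, hA⟩, hz⟩⟩
  refine ⟨Set.range fun i => dig ⁻¹' Z i, ?_, ?_, mk_range_le.trans hι⟩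
  · rintro _ ⟨i, rfl⟩
    exact h1 _ (hZ i)
  · refine Set.sUnion_eq_univ_iff.2 fun x => ?_
    obtain ⟨i, hi⟩ := hcov (dig x)
    exact ⟨_, ⟨i, rfl⟩, hi⟩

theorem half_univ_ne_zero :
    Measure.hausdorffMeasure (1 / 2 : ℝ) (Set.univ : Set (EuclideanSpace ℝ (Fin 1))) ≠ 0 := by
  intro h
  have h1 : dimH (Set.univ : Set (EuclideanSpace ℝ (Fin 1))) ≤ ((1 / 2 : NNReal) : ℝ≥0∞) := by
    apply dimH_le_of_hausdorffMeasure_ne_top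
    have : ((1 / 2 : NNReal) : ℝ) = 1 / 2 := by norm_num
    rw [this, h]
    exact ENNReal.zero_ne_top
  rw [Real.dimH_univ_eq_finrank, finrank_euclideanSpace_fin, Nat.cast_one, ← ENNReal.coe_one,
    ENNReal.coe_le_coe] at h1
  exact absurd h1 (not_le.2 one_half_lt_one)

theorem non_const : ∃ κ : Cardinal.{0}, ∀ (n : ℕ) (μ : Measure (EuclideanSpace ℝ (Fin n))),
    InBand n μ → IsLeast {c : Cardinal.{0} | ∃ X : Set (EuclideanSpace ℝ (Fin n)),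
      μ X ≠ 0 ∧ #X = c} κ := by
  have h0 : InBand 1 (Measure.hausdorffMeasure (1 / 2 : ℝ)) :=
    inBand_hausdorff (by norm_num) (by norm_num)
  obtain ⟨κ, ⟨X, hX, hXκ⟩, hmin⟩ := wellFounded_lt.has_min
    {c : Cardinal.{0} | ∃ X : Set (EuclideanSpace ℝ (Fin 1)),
      Measure.hausdorffMeasure (1 / 2 : ℝ) X ≠ 0 ∧ #X = c} ⟨_, Set.univ, half_univ_ne_zero, rfl⟩
  refine ⟨κ, fun n μ hμ => ?_⟩
  have hlow : ∀ Z : Set (EuclideanSpace ℝ (Fin n)), μ Z ≠ 0 → κ ≤ #Z := by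
    intro Z hZ
    obtain ⟨Y, hY, hc⟩ := non_transfer hμ h0 hZ
    exact (not_lt.1 (hmin _ ⟨Y, hY, rfl⟩)).trans hc
  obtain ⟨Y, hY, hc⟩ := non_transfer h0 hμ hX
  refine ⟨⟨Y, hY, le_antisymm (hXκ ▸ hc) (hlow Y hY)⟩, ?_⟩
  rintro c ⟨Z, hZ, rfl⟩
  exact hlow Z hZ

theorem cov_const : ∃ κ : Cardinal.{0}, ∀ (n : ℕ) (μ : Measure (EuclideanSpace ℝ (Fin n))),
    InBand n μ → IsLeast {c : Cardinal.{0} | ∃ 𝒜 : Set (Set (EuclideanSpace ℝ (Fin n))),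
      (∀ A ∈ 𝒜, μ A = 0) ∧ ⋃₀ 𝒜 = Set.univ ∧ #𝒜 = c} κ := by
  have h0 : InBand 1 (Measure.hausdorffMeasure (1 / 2 : ℝ)) :=
    inBand_hausdorff (by norm_num) (by norm_num)
  obtain ⟨κ, ⟨𝒜, h1, h2, hκ⟩, hmin⟩ := wellFounded_lt.has_min
    {c : Cardinal.{0} | ∃ 𝒜 : Set (Set (EuclideanSpace ℝ (Fin 1))),
      (∀ A ∈ 𝒜, Measure.hausdorffMeasure (1 / 2 : ℝ) A = 0) ∧ ⋃₀ 𝒜 = Set.univ ∧ #𝒜 = c}
    ⟨_, Set.range fun x => {x}, by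
      rintro _ ⟨x, rfl⟩
      exact h0.countable (Set.countable_singleton x),
      Set.sUnion_eq_univ_iff.2 fun x => ⟨_, ⟨x, rfl⟩, rfl⟩, rfl⟩
  refine ⟨κ, fun n μ hμ => ?_⟩
  have hlow : ∀ ℬ : Set (Set (EuclideanSpace ℝ (Fin n))), (∀ B ∈ ℬ, μ B = 0) →
      ⋃₀ ℬ = Set.univ → κ ≤ #ℬ := by
    intro ℬ hB hB'
    obtain ⟨𝒞, hC, hC', hc⟩ := cov_transfer h0 hμ hB hB'
    exact (not_lt.1 (hmin _ ⟨𝒞, hC, hC', rfl⟩)).trans hc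
  obtain ⟨ℬ, hB, hB', hc⟩ := cov_transfer hμ h0 h1 h2
  refine ⟨⟨ℬ, hB, hB', le_antisymm (hκ ▸ hc) (hlow ℬ hB hB')⟩, ?_⟩
  rintro c ⟨𝒞, hC, hC', rfl⟩
  exact hlow 𝒞 hC hC'

end Pool.Agent.Lib.MP_eebbd0_lc.Band
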