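import Pool.Agent.Lib.MP_eebbd0_lc.BCond
import Pool.Agent.Lib.MP_eebbd0_lc.BGale

/-!
The condensing step.
-/

namespace Pool.Agent.Lib.MP_eebbd0_lc.Band

open Filter Topology
open scoped ENNReal

/-- Extension of a finite string by a fixed digit. -/
def extd {A : Type} [Inhabited A] {l : ℕ} (α : Fin l → A) : ℕ → A :=
  fun k => if h : k < l then α ⟨k, h⟩ else default

theorem extd_pre {A : Type} [Inhabited A] {l : ℕ} (x : ℕ → A) {k : ℕ} (hk : k < l) :
    extd (pre l x) k = x k := by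
  simp [extd, pre, hk]

theorem bstep_bound {d : ℕ → ℝ≥0∞} {M Λ : ℕ → ℕ} (hM : StrictMono M) (hΛ : ∀ j, 0 < Λ j) {J : ℕ}
    (h : ∀ j, J ≤ j → ∀ l, M j ≤ l → l ≤ M (j + 1) → d l ≤ Λ j * d (M j)) {l : ℕ}
    (hl : M J ≤ l) :
    ∃ j, J ≤ j ∧ M j ≤ l ∧ d l ≤ ((∏ i ∈ Finset.range (j + 1), Λ i : ℕ) : ℝ≥0∞) * d (M J) := by
  have key : ∀ j, J ≤ j → d (M j) ≤ ((∏ i ∈ Finset.range j, Λ i : ℕ) : ℝ≥0∞) * d (M J) := by
    intro j hj
    induction j, hj using Nat.le_induction with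
    | base =>
      refine le_mul_of_one_le_left' ?_
      exact_mod_cast Finset.prod_pos fun i _ => hΛ i
    | succ j hj ih =>
      refine (h j hj _ (hM.monotone (Nat.le_succ j)) le_rfl).trans ?_
      rw [Finset.prod_range_succ, Nat.cast_mul, mul_comm _ (Λ j : ℝ≥0∞), mul_assoc]
      exact mul_le_mul_right ih _
  have hex : ∃ j, l < M (j + 1) := ⟨l, lt_of_lt_of_le (Nat.lt_succ_self l) hM.le_apply⟩
  have h1 : l < M (Nat.find hex + 1) := Nat.find_spec hex
  have h2 : M (Nat.find hex) ≤ l := by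
    rcases h0 : Nat.find hex with _ | j
    · exact (hM.monotone (Nat.zero_le J)).trans hl
    · exact not_lt.1 (Nat.find_min hex (by omega))
  have h3 : J ≤ Nat.find hex := Nat.lt_succ_iff.1 (hM.lt_iff_lt.1 (hl.trans_lt h1))
  refine ⟨Nat.find hex, h3, h2, (h _ h3 l h2 h1.le).trans ?_⟩
  rw [Finset.prod_range_succ, Nat.cast_mul, mul_comm _ (Λ _ : ℝ≥0∞), mul_assoc]
  exact mul_le_mul_right (key _ h3) _

theorem exists_fub (p n : ℕ) (φ γ : ℕ → ℝ≥0∞) (M a b K Λ : ℕ → ℕ) (hM : StrictMono M)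
    (ha : Monotone a) (hb : Monotone b) (ha' : Tendsto a atTop atTop)
    (hb' : Tendsto b atTop atTop) (hΛ : ∀ j, 0 < Λ j)
    (h1 : ∀ j, 6 * 2 ^ (p * b j) ≤ K j * Λ j) (h2 : ∀ j, p * a j + 2 ≤ K j)
    (h3 : ∀ᶠ j in atTop, 2 ^ (n * M (j + 1)) * φ (a j) ≤ 2⁻¹ ^ j)
    (h4 : ∀ᶠ j in atTop, (K j : ℝ≥0∞) * φ (b j) ≤ 2⁻¹ ^ j)
    (h5 : ∀ᶠ j in atTop, ∀ l, M j ≤ l →
      ((∏ i ∈ Finset.range (j + 1), Λ i : ℕ) : ℝ≥0∞) ≤ 2 ^ (n * l) * γ l) :
    ∃ F : (ℕ → Fin p → Bool) → (ℕ → Fin p → Bool) → ℕ → Fin n → Bool, Fub φ γ F := by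
  classical
  have hcard : ∀ r l : ℕ, Fintype.card (Fin l → Fin r → Bool) = 2 ^ (r * l) := fun r l => by
    simp only [Fintype.card_fun, Fintype.card_bool, Fintype.card_fin, ← pow_mul]
  have hq : Fintype.card (Fin n → Bool) = 2 ^ n := by
    simp only [Fintype.card_fun, Fintype.card_bool, Fintype.card_fin]
  let m : ℕ → ℕ := fun j => M (j + 1) - M j
  have hm : ∀ j, M j + m j = M (j + 1) := fun j =>
    Nat.add_sub_cancel' (hM.monotone (Nat.le_succ j))
  have hex := fun (j : ℕ) (N : (ℕ → Fin p → Bool) → (ℕ → Fin p → Bool) → ℕ → Fin n → Bool) =>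
    exists_cond (A := Fin (a j) → Fin p → Bool) (B := Fin (b j) → Fin p → Bool)
      (D := Fin (m j) → Fin n → Bool) (P := Fin (M j) → Fin n → Bool)
      (fun α β => pre (M j) (N (extd α) (extd β))) (Λ j) (K j) (hΛ j)
      (by rw [hcard]; exact h1 j)
      (by
        rw [hcard]
        calc 4 * 2 ^ (p * a j) = 2 ^ (p * a j + 2) := by ring
          _ ≤ 2 ^ K j := Nat.pow_le_pow_right (by norm_num) (h2 j))
  choose G hG using hex
  let N : ℕ → (ℕ → Fin p → Bool) → (ℕ → Fin p → Bool) → ℕ → Fin n → Bool := fun j =>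
    Nat.rec (motive := fun _ => (ℕ → Fin p → Bool) → (ℕ → Fin p → Bool) → ℕ → Fin n → Bool)
      (fun _ _ _ => default)
      (fun j Nj x y => splice (M j) (Nj x y) (G j Nj (pre (a j) x) (pre (b j) y))) j
  have hN : ∀ j x y, N (j + 1) x y =
      splice (M j) (N j x y) (G j (N j) (pre (a j) x) (pre (b j) y)) := fun _ _ _ => rfl
  have hinv : ∀ j x x' y y', (∀ k < a j, x k = x' k) → (∀ k < b j, y k = y' k) →
      N j x y = N j x' y' := by
    intro j
    induction j with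
    | zero => exact fun _ _ _ _ _ _ => rfl
    | succ j ih =>
      intro x x' y y' hx hy
      have hx' : ∀ k < a j, x k = x' k := fun k hk => hx k (hk.trans_le (ha (Nat.le_succ j)))
      have hy' : ∀ k < b j, y k = y' k := fun k hk => hy k (hk.trans_le (hb (Nat.le_succ j)))
      have e1 : pre (a j) x = pre (a j) x' := funext fun k => hx' k k.2
      have e2 : pre (b j) y = pre (b j) y' := funext fun k => hy' k k.2
      rw [hN, hN, ih x x' y y' hx' hy', e1, e2]
  have hcons : ∀ x y j j', j ≤ j' → ∀ k < M j, N j' x y k = N j x y k := by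
    intro x y j j' hj k hk
    induction j', hj using Nat.le_induction with
    | base => rfl
    | succ j' hj ih =>
      have := hM.monotone hj
      rw [hN, splice, dif_neg (by omega), ih]
  have hF : ∀ x y j, ∀ k < M j, N (k + 1) x y k = N j x y k := by
    intro x y j k hk
    have h0 : k < M (k + 1) := lt_of_lt_of_le (Nat.lt_succ_self k) hM.le_apply
    rw [← hcons x y (k + 1) (max (k + 1) j) (le_max_left _ _) k h0,
      hcons x y j (max (k + 1) j) (le_max_right _ _) k hk]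
  refine ⟨fun x y k => N (k + 1) x y k, fun Z hZ => ?_⟩
  obtain ⟨d, hd1, hdfin, hdep, hsup, hsucc⟩ := exists_gale hZ
  let S : (j : ℕ) → (Fin (M j) → Fin n → Bool) → Finset (Fin (m j) → Fin n → Bool) := fun j P =>
    Finset.univ.filter fun u => ∃ i ≤ m j,
      Λ j * d (M j) (extd P) ≤ d (M j + i) (splice (M j) (extd P) u)
  have hS : ∀ j P, (S j P).card * Λ j ≤ Fintype.card (Fin (m j) → Fin n → Bool) := by
    intro j P
    have h0 := ville hdep hsup (M j) (m j) (extd P) (Λ j * d (M j) (extd P))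
    rw [← mul_assoc, ENNReal.mul_le_mul_iff_left
      (zero_lt_one.trans_le (hd1 _ _)).ne' (hdfin _ _)] at h0
    rw [Fintype.card_fun, Fintype.card_fin]
    have h0' : (((S j P).card * Λ j : ℕ) : ℝ≥0∞) ≤
        ((Fintype.card (Fin n → Bool) ^ m j : ℕ) : ℝ≥0∞) := by
      push_cast
      convert h0
    exact_mod_cast h0'
  let ψ : (j : ℕ) → (Fin (a j) → Fin p → Bool) → Finset (Fin (b j) → Fin p → Bool) := fun j α =>
    Finset.univ.filter fun β => G j (N j) α β ∈ S j (pre (M j) (N j (extd α) (extd β)))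
  let Bad : (j : ℕ) → Finset (Fin (a j) → Fin p → Bool) := fun j =>
    Finset.univ.filter fun α => K j ≤ (ψ j α).card
  have hBad : ∀ j, (Bad j).card ≤ 2 ^ (n * M (j + 1)) := by
    intro j
    have h0 := (hG j (N j) (S j) (hS j)).le
    rw [hcard, hcard, ← pow_add, ← mul_add, add_comm, hm] at h0
    convert h0
  refine ⟨{x | ∃ᶠ j in atTop, pre (a j) x ∈ Bad j}, null_frequently a ha' Bad ?_, fun x hx => ?_⟩
  · filter_upwards [h3] with j hj
    refine le_trans (mul_le_mul_left ?_ _) hj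
    exact_mod_cast hBad j
  have hx' : ∀ᶠ j in atTop, pre (a j) x ∉ Bad j := not_frequently.1 hx
  refine (null_frequently b hb' (fun j => ψ j (pre (a j) x)) ?_).mono fun y hy => ?_
  · filter_upwards [h4, hx'] with j hj hj'
    refine le_trans (mul_le_mul_left ?_ _) hj
    have : ¬K j ≤ (ψ j (pre (a j) x)).card := fun h0 =>
      hj' (Finset.mem_filter.2 ⟨Finset.mem_univ _, h0⟩)
    exact_mod_cast (not_le.1 this).le
  by_contra hcon
  have hy' : ∀ᶠ j in atTop, pre (b j) y ∉ ψ j (pre (a j) x) := not_frequently.1 hcon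
  obtain ⟨J, hJ⟩ := eventually_atTop.1 (hy'.and h5)
  set z : ℕ → Fin n → Bool := fun k => N (k + 1) x y k with hz
  have hstep : ∀ j, J ≤ j → ∀ l, M j ≤ l → l ≤ M (j + 1) → d l z ≤ Λ j * d (M j) z := by
    intro j hj l hl1 hl2
    obtain ⟨i, rfl⟩ := Nat.exists_eq_add_of_le hl1
    have hi : i ≤ m j := by
      have := hm j
      omega
    have e0 : N j (extd (pre (a j) x)) (extd (pre (b j) y)) = N j x y :=
      hinv j _ _ _ _ (fun k hk => extd_pre x hk) fun k hk => extd_pre y hk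
    have e1 : d (M j) (extd (pre (M j) (N j x y))) = d (M j) z :=
      hdep _ _ _ fun k hk => (extd_pre _ hk).trans (hF x y j k hk).symm
    have e2 : d (M j + i) (splice (M j) (extd (pre (M j) (N j x y)))
        (G j (N j) (pre (a j) x) (pre (b j) y))) = d (M j + i) z := by
      refine hdep _ _ _ fun k hk => ?_
      refine Eq.trans ?_ (hF x y (j + 1) k (hk.trans_le hl2)).symm
      rw [hN]
      simp only [splice]
      split_ifs with h0
      · rfl
      · exact extd_pre _ (by omega)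
    by_contra hlt
    refine (hJ j hj).1 (Finset.mem_filter.2 ⟨Finset.mem_univ _, ?_⟩)
    rw [e0]
    refine Finset.mem_filter.2 ⟨Finset.mem_univ _, i, hi, ?_⟩
    rw [e1, e2]
    exact (not_le.1 hlt).le
  obtain ⟨C, hC⟩ := ENNReal.exists_nat_gt (hdfin (M J) z)
  obtain ⟨l, hl1, hl2⟩ := hsucc z hy C (M J)
  obtain ⟨j, hj1, hj2, hj3⟩ := bstep_bound (d := fun l => d l z) hM hΛ hstep hl1
  have h6 := (hJ j hj1).2 l hj2
  rw [hq, Nat.cast_pow, Nat.cast_ofNat, ← pow_mul] at hl2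
  have h7 := ((mul_le_mul_right h6 (C : ℝ≥0∞)).trans hl2).trans hj3
  rw [mul_comm, ENNReal.mul_le_mul_iff_right
    (by exact_mod_cast (Finset.prod_pos fun i _ => hΛ i).ne') (ENNReal.natCast_ne_top _)] at h7
  exact absurd hC (not_lt.2 h7)

end Pool.Agent.Lib.MP_eebbd0_lc.Band
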