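import Mathlib

/-!
Counting lemmas: existence of a condenser with side information.
-/

namespace Pool.Agent.Lib.MP_eebbd0_lc

open Finset

theorem card_hits_le {I H : Type*} [Fintype I] [DecidableEq I] [Fintype H] [DecidableEq H]
    (Bad : I → Finset H) (θ : ℝ) (hθ : 0 ≤ θ)
    (hB : ∀ i, ((Bad i).card : ℝ) ≤ θ * Fintype.card H) (K : ℕ) :
    (((univ : Finset (I → H)).filter
        fun f => K ≤ ((univ : Finset I).filter fun i => f i ∈ Bad i).card).card : ℝ)
      ≤ (Fintype.card I * θ) ^ K * (Fintype.card H : ℝ) ^ (Fintype.card I) := by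
  classical
  have hsub : ((univ : Finset (I → H)).filter
        fun f => K ≤ ((univ : Finset I).filter fun i => f i ∈ Bad i).card) ⊆
      (powersetCard K (univ : Finset I)).biUnion
        fun J => Fintype.piFinset fun i => if i ∈ J then Bad i else univ := by
    intro f hf
    rw [mem_filter] at hf
    obtain ⟨J, hJ, hJc⟩ := exists_subset_card_eq hf.2
    rw [mem_biUnion]
    refine ⟨J, mem_powersetCard.2 ⟨subset_univ _, hJc⟩, ?_⟩
    rw [Fintype.mem_piFinset]
    intro i
    split_ifs with hi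
    · exact (mem_filter.1 (hJ hi)).2
    · exact mem_univ _
  have h1 := card_le_card hsub
  have h2 := h1.trans card_biUnion_le
  have h3 : ∀ J ∈ powersetCard K (univ : Finset I),
      ((Fintype.piFinset fun i => if i ∈ J then Bad i else univ).card : ℝ)
        ≤ θ ^ K * (Fintype.card H : ℝ) ^ (Fintype.card I) := by
    intro J hJ
    have hJc := (mem_powersetCard.1 hJ).2
    rw [Fintype.card_piFinset]
    push_cast
    calc ∏ i, ((if i ∈ J then Bad i else univ).card : ℝ)
        ≤ ∏ i, ((if i ∈ J then θ else 1) * (Fintype.card H : ℝ)) := by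
          apply prod_le_prod
          · intro i _
            positivity
          · intro i _
            split_ifs with hi
            · exact hB i
            · simp
      _ = θ ^ K * (Fintype.card H : ℝ) ^ (Fintype.card I) := by
          rw [prod_mul_distrib, prod_const, card_univ, prod_ite_mem, univ_inter, prod_const, hJc]
  have h4 : (((univ : Finset (I → H)).filter
        fun f => K ≤ ((univ : Finset I).filter fun i => f i ∈ Bad i).card).card : ℝ)
      ≤ ∑ J ∈ powersetCard K (univ : Finset I),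
        ((Fintype.piFinset fun i => if i ∈ J then Bad i else univ).card : ℝ) := by
    exact_mod_cast h2
  refine h4.trans ((sum_le_sum h3).trans ?_)
  rw [sum_const, card_powersetCard, card_univ, nsmul_eq_mul, mul_pow, mul_assoc]
  apply mul_le_mul_of_nonneg_right
  · exact_mod_cast Nat.choose_le_pow _ _
  · positivity

theorem exists_condenser {A B D P : Type*} [Fintype A] [Fintype B] [Fintype D] [Fintype P]
    [DecidableEq D] (π : A → B → P) (t K : ℕ)
    (hD : 0 < Fintype.card D) (hP : 0 < Fintype.card P)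
    (h1 : 2 * Fintype.card B * t ≤ Fintype.card D) (h2 : 4 * Fintype.card A ≤ 2 ^ K) :
    ∃ g : A → B → D, ∀ S : P → Finset D, (∀ p, (S p).card ≤ t) →
      ((univ : Finset A).filter fun a =>
        K ≤ ((univ : Finset B).filter fun b => g a b ∈ S (π a b)).card).card
          < Fintype.card D * Fintype.card P := by
  classical
  set M := Fintype.card D * Fintype.card P with hM
  have hM0 : 0 < M := Nat.mul_pos hD hP
  by_contra hcon
  push Not at hcon
  have hDr : (0 : ℝ) < Fintype.card D := by exact_mod_cast hD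
  set T : ℝ := (Fintype.card (B → D) : ℝ) with hT
  have hTpos : 0 < T := by
    rw [hT, Fintype.card_fun]
    push_cast
    positivity
  -- the admissible predictors
  set 𝒮 : Finset (P → Finset D) := univ.filter fun S => ∀ p, (S p).card ≤ t with h𝒮
  have hS : (𝒮.card : ℝ) ≤ 2 ^ M := by
    have : 𝒮.card ≤ Fintype.card (P → Finset D) := card_le_univ _
    rw [Fintype.card_fun, Fintype.card_finset, ← pow_mul] at this
    exact_mod_cast this
  -- bad rows
  let Bad : (P → Finset D) → A → Finset (B → D) := fun S a =>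
    univ.filter fun h => K ≤ ((univ : Finset B).filter fun b => h b ∈ S (π a b)).card
  have hBad : ∀ S ∈ 𝒮, ∀ a, ((Bad S a).card : ℝ) ≤ (1 / 2) ^ K * Fintype.card (B → D) := by
    intro S hS a
    have hS' := (mem_filter.1 hS).2
    have := card_hits_le (fun b => S (π a b)) ((t : ℝ) / Fintype.card D) (by positivity)
      (fun b => by
        rw [div_mul_cancel₀ _ hDr.ne']
        exact_mod_cast hS' _) K
    refine this.trans ?_
    rw [Fintype.card_fun]
    push_cast
    apply mul_le_mul_of_nonneg_right _ (by positivity)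
    apply pow_le_pow_left₀ (by positivity)
    rw [← mul_div_assoc, div_le_div_iff₀ hDr (by norm_num)]
    have : ((2 * Fintype.card B * t : ℕ) : ℝ) ≤ Fintype.card D := by exact_mod_cast h1
    push_cast at this
    linarith
  have hG : ∀ S ∈ 𝒮, (((univ : Finset (A → B → D)).filter
        fun g => M ≤ ((univ : Finset A).filter fun a => g a ∈ Bad S a).card).card : ℝ)
      ≤ (1 / 4) ^ M * T ^ (Fintype.card A) := by
    intro S hS
    refine (card_hits_le (Bad S) ((1 / 2) ^ K) (by positivity) (hBad S hS) M).trans ?_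
    apply mul_le_mul_of_nonneg_right _ (by positivity)
    apply pow_le_pow_left₀ (by positivity)
    have : ((4 * Fintype.card A : ℕ) : ℝ) ≤ ((2 ^ K : ℕ) : ℝ) := by exact_mod_cast h2
    push_cast at this
    rw [one_div, inv_pow, ← div_eq_mul_inv, div_le_div_iff₀ (by positivity) (by norm_num)]
    linarith
  have hcover : (univ : Finset (A → B → D)) ⊆ 𝒮.biUnion fun S =>
      (univ : Finset (A → B → D)).filter
        fun g => M ≤ ((univ : Finset A).filter fun a => g a ∈ Bad S a).card := by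
    intro g _
    obtain ⟨S, hS, hSg⟩ := hcon g
    rw [mem_biUnion]
    refine ⟨S, mem_filter.2 ⟨mem_univ _, hS⟩, mem_filter.2 ⟨mem_univ _, ?_⟩⟩
    refine hSg.trans (le_of_eq ?_)
    congr 1
    ext a
    simp [Bad]
  have h5 := (card_le_card hcover).trans card_biUnion_le
  have h6 : ((univ : Finset (A → B → D)).card : ℝ) ≤ ∑ S ∈ 𝒮, (((univ : Finset (A → B → D)).filter
        fun g => M ≤ ((univ : Finset A).filter fun a => g a ∈ Bad S a).card).card : ℝ) := by
    exact_mod_cast h5
  have h7 := h6.trans (sum_le_sum hG)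
  rw [sum_const, nsmul_eq_mul, card_univ, Fintype.card_fun (α := A)] at h7
  push_cast at h7
  have h8 : (𝒮.card : ℝ) * ((1 / 4) ^ M * T ^ (Fintype.card A))
      ≤ (1 / 2) ^ M * T ^ (Fintype.card A) := by
    rw [← mul_assoc]
    apply mul_le_mul_of_nonneg_right _ (by positivity)
    calc (𝒮.card : ℝ) * (1 / 4) ^ M ≤ 2 ^ M * (1 / 4) ^ M :=
          mul_le_mul_of_nonneg_right hS (by positivity)
      _ = (1 / 2) ^ M := by rw [← mul_pow]; norm_num
  have h9 : ((1 : ℝ) / 2) ^ M < 1 := pow_lt_one₀ (by norm_num) (by norm_num) hM0.ne'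
  have h10 : 0 < T ^ (Fintype.card A) := by positivity
  have h11 := h7.trans h8
  rw [← hT] at h11
  nlinarith

/-- The condenser in the form used for points. -/
theorem exists_condenser_pt {Ω α β Q D : Type*} [Fintype D] [DecidableEq D]
    (c₁ : Ω → α) (c₂ : Ω → β) (A : Finset α) (B : Finset β) (P : Finset Q)
    (hA : ∀ x, c₁ x ∈ A) (hB : ∀ y, c₂ y ∈ B) (π : Ω → Ω → Q) (hP : ∀ x y, π x y ∈ P)
    (hπ : ∀ x x' y y', c₁ x = c₁ x' → c₂ y = c₂ y' → π x y = π x' y')
    (t K : ℕ) (hD : 0 < Fintype.card D) (hP0 : P.Nonempty)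
    (h1 : 2 * B.card * t ≤ Fintype.card D) (h2 : 4 * A.card ≤ 2 ^ K) :
    ∃ u : Ω → Ω → D, (∀ x x' y y', c₁ x = c₁ x' → c₂ y = c₂ y' → u x y = u x' y') ∧
      ∀ S : Q → Finset D, (∀ p, (S p).card ≤ t) →
        ∃ Bad : Finset α, Bad.card ≤ Fintype.card D * P.card ∧ ∀ x, c₁ x ∉ Bad →
          ∃ ψ : Finset β, ψ.card ≤ K ∧ ∀ y, c₂ y ∉ ψ → u x y ∉ S (π x y) := by
  classical
  obtain ⟨p₀, hp₀⟩ := hP0
  have hex : ∀ (a : A) (b : B), ∃ p : P, ∀ x y, c₁ x = a → c₂ y = b → π x y = p := by
    intro a b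
    by_cases h : ∃ x y, c₁ x = a ∧ c₂ y = b
    · obtain ⟨x, y, hx, hy⟩ := h
      refine ⟨⟨π x y, hP x y⟩, fun x' y' hx' hy' => ?_⟩
      exact hπ _ _ _ _ (hx'.trans hx.symm) (hy'.trans hy.symm)
    · exact ⟨⟨p₀, hp₀⟩, fun x y hx hy => (h ⟨x, y, hx, hy⟩).elim⟩
  choose π' hπ' using hex
  obtain ⟨g, hg⟩ := exists_condenser (A := A) (B := B) (D := D) (P := P) π' t K hD
    (by rw [Fintype.card_coe]; exact card_pos.2 ⟨p₀, hp₀⟩)
    (by rwa [Fintype.card_coe]) (by rwa [Fintype.card_coe])
  refine ⟨fun x y => g ⟨c₁ x, hA x⟩ ⟨c₂ y, hB y⟩, ?_, ?_⟩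
  · intro x x' y y' hx hy
    have e1 : (⟨c₁ x, hA x⟩ : A) = ⟨c₁ x', hA x'⟩ := Subtype.ext hx
    have e2 : (⟨c₂ y, hB y⟩ : B) = ⟨c₂ y', hB y'⟩ := Subtype.ext hy
    simp only [e1, e2]
  · intro S hS
    have h := hg (fun p => S p) (fun p => hS p)
    rw [Fintype.card_coe] at h
    refine ⟨(((univ : Finset A).filter fun a =>
        K ≤ ((univ : Finset B).filter fun b => g a b ∈ S (π' a b)).card).map
          (Function.Embedding.subtype _)), ?_, ?_⟩
    · rw [card_map]
      exact h.le
    · intro x hx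
      have hx' : ((univ : Finset B).filter
          fun b => g ⟨c₁ x, hA x⟩ b ∈ S (π' ⟨c₁ x, hA x⟩ b)).card < K := by
        by_contra hc
        push Not at hc
        apply hx
        rw [mem_map]
        exact ⟨⟨c₁ x, hA x⟩, mem_filter.2 ⟨mem_univ _, hc⟩, rfl⟩
      refine ⟨((univ : Finset B).filter
          fun b => g ⟨c₁ x, hA x⟩ b ∈ S (π' ⟨c₁ x, hA x⟩ b)).map
            (Function.Embedding.subtype _), ?_, ?_⟩
      · rw [card_map]
        exact hx'.le
      · intro y hy hmem
        apply hy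
        rw [mem_map]
        refine ⟨⟨c₂ y, hB y⟩, mem_filter.2 ⟨mem_univ _, ?_⟩, rfl⟩
        rw [← hπ' ⟨c₁ x, hA x⟩ ⟨c₂ y, hB y⟩ x y rfl rfl]
        exact hmem

theorem dep_choice {α : Type*} (Inv : ℕ → α → Prop) (Rel : ℕ → α → α → Prop) (x₀ : α)
    (h₀ : Inv 0 x₀) (hstep : ∀ j x, Inv j x → ∃ y, Inv (j + 1) y ∧ Rel j x y) :
    ∃ f : ℕ → α, ∀ j, Inv j (f j) ∧ Rel j (f j) (f (j + 1)) := by
  choose step h1 h2 using hstep
  let F : (j : ℕ) → {x // Inv j x} := fun j =>
    Nat.rec (motive := fun j => {x // Inv j x}) ⟨x₀, h₀⟩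
      (fun j x => ⟨step j x.1 x.2, h1 j x.1 x.2⟩) j
  exact ⟨fun j => (F j).1, fun j => ⟨(F j).2, h2 j (F j).1 (F j).2⟩⟩

end Pool.Agent.Lib.MP_eebbd0_lc
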