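import Mathlib
import Pool.Agent.Lib.MP_eebbd0_lc.Count
import Pool.Agent.Lib.MP_eebbd0_lc.Avoid
import Pool.Agent.Lib.MP_eebbd0_lc.Predict

/-!
The main construction: from a set `X` that is not `r`-null to an image of `X × X` that is not
`s`-null.
-/

namespace Pool.Agent.Lib.MP_eebbd0_lc

open Finset MeasureTheory Filter Topology
open scoped ENNReal

theorem child_mem_box {n l m : ℕ} {p : Fin n → ℤ} (hp : p ∈ box 0 l)
    (u : Fin n → Fin (2 ^ m)) : child m p u ∈ box 0 (l + m) := by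
  rw [box, Fintype.mem_piFinset] at hp ⊢
  intro k
  have h := hp k
  simp only [Pi.zero_apply, mul_zero, zero_add, Finset.mem_Ico] at h ⊢
  have h3 : ((u k : ℕ) : ℤ) + 1 ≤ 2 ^ m := by exact_mod_cast (u k).2
  have h4 : (0 : ℤ) ≤ ((u k : ℕ) : ℤ) := by positivity
  have hm : (0 : ℤ) < 2 ^ m := by positivity
  simp only [child]
  rw [pow_add]
  constructor
  · have := mul_nonneg hm.le h.1
    linarith
  · have : p k + 1 ≤ 2 ^ l := h.2
    nlinarith

theorem half_pow_rpow (k : ℕ) (r : ℝ) : ((1 / 2 : ℝ) ^ k) ^ r = (2 : ℝ) ^ (-(k * r)) := by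
  rw [one_div, inv_pow, ← Real.rpow_natCast, ← Real.rpow_neg (by norm_num),
    ← Real.rpow_mul (by norm_num), neg_mul]

theorem grow_bound {n L q : ℕ} {s : ℝ} (hq : s * L + 1 ≤ q) :
    ∀ᶠ j : ℕ in atTop, 2 * 4 ^ n * ((1 / 2 : ℝ) ^ (L * (j + 1) ^ 2)) ^ s
      ≤ ((2 ^ (q * (2 * j + 1)) : ℕ) : ℝ) * ((1 / 2 : ℝ) ^ (L * (j + 2) ^ 2)) ^ s := by
  have h : ∀ᶠ j : ℕ in atTop, (n : ℝ) + s * L ≤ j :=
    tendsto_natCast_atTop_atTop.eventually (eventually_ge_atTop _)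
  filter_upwards [h] with j hj
  rw [half_pow_rpow, half_pow_rpow]
  have e1 : (2 : ℝ) * 4 ^ n = 2 ^ ((2 * n + 1 : ℕ) : ℝ) := by
    rw [Real.rpow_natCast, pow_succ, pow_mul]
    norm_num [mul_comm]
  have e2 : ((2 ^ (q * (2 * j + 1)) : ℕ) : ℝ) = 2 ^ ((q * (2 * j + 1) : ℕ) : ℝ) := by
    rw [Real.rpow_natCast]
    push_cast
    rfl
  rw [e1, e2, ← Real.rpow_add (by norm_num), ← Real.rpow_add (by norm_num)]
  apply Real.rpow_le_rpow_of_exponent_le (by norm_num)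
  push_cast
  have hj0 : (0 : ℝ) ≤ 2 * j + 1 := by positivity
  have := mul_le_mul_of_nonneg_right hq hj0
  nlinarith

theorem summable_first {r : ℝ} {C : ℕ} (hC : 1 ≤ C * r) (k c : ℕ → ℕ)
    (hc : ∀ j, c j ≤ 2 ^ k j) :
    Summable fun j => (c j : ℝ) * ((1 / 2 : ℝ) ^ (C * (k j + j))) ^ r := by
  refine Summable.of_nonneg_of_le (fun j => by positivity) (fun j => ?_) summable_geometric_two
  have h1 : (c j : ℝ) ≤ 2 ^ ((k j : ℕ) : ℝ) := by
    rw [Real.rpow_natCast]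
    exact_mod_cast hc j
  have h2 : ((1 : ℝ) / 2) ^ j = 2 ^ (-(j : ℝ)) := by
    have := half_pow_rpow j 1
    rwa [Real.rpow_one, mul_one] at this
  rw [half_pow_rpow, h2]
  refine (mul_le_mul_of_nonneg_right h1 (by positivity)).trans ?_
  rw [← Real.rpow_add (by norm_num)]
  apply Real.rpow_le_rpow_of_exponent_le (by norm_num)
  push_cast
  have h3 : (0 : ℝ) ≤ (k j : ℝ) + j := by positivity
  have := mul_le_mul_of_nonneg_right hC h3
  nlinarith

theorem summable_second {r : ℝ} (hr : 0 < r) (A : ℕ) (c : ℕ → ℕ)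
    (hc : ∀ j, c j ≤ A * (j + 1) ^ 2) :
    Summable fun j => (c j : ℝ) * ((1 / 2 : ℝ) ^ (2 * j + 1)) ^ r := by
  set ρ : ℝ := (1 / 2 : ℝ) ^ r with hρ
  have hρ0 : 0 < ρ := by positivity
  have hρ1 : ρ < 1 := Real.rpow_lt_one (by norm_num) (by norm_num) hr
  have hn : ‖ρ‖ < 1 := by rwa [Real.norm_eq_abs, abs_of_pos hρ0]
  have h0 : Summable fun j : ℕ => (j : ℝ) ^ 2 * ρ ^ j :=
    summable_pow_mul_geometric_of_norm_lt_one 2 hn
  have h1 : Summable fun j : ℕ => ((j + 1 : ℕ) : ℝ) ^ 2 * ρ ^ (j + 1) :=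
    (summable_nat_add_iff (f := fun j : ℕ => (j : ℝ) ^ 2 * ρ ^ j) 1).2 h0
  have h2 := h1.mul_left (A / ρ)
  refine Summable.of_nonneg_of_le (fun j => by positivity) (fun j => ?_) h2
  have h3 : ((1 / 2 : ℝ) ^ (2 * j + 1)) ^ r ≤ ρ ^ j := by
    rw [hρ, Real.rpow_pow_comm (by norm_num)]
    apply Real.rpow_le_rpow (by positivity) _ hr.le
    exact pow_le_pow_of_le_one (by norm_num) (by norm_num) (by omega)
  have h4 : (c j : ℝ) ≤ A * (j + 1) ^ 2 := by exact_mod_cast hc j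
  calc (c j : ℝ) * ((1 / 2 : ℝ) ^ (2 * j + 1)) ^ r ≤ A * (j + 1) ^ 2 * ρ ^ j :=
        mul_le_mul h4 h3 (by positivity) (by positivity)
    _ = A / ρ * (((j + 1 : ℕ) : ℝ) ^ 2 * ρ ^ (j + 1)) := by
        push_cast
        field_simp
        ring

theorem exists_map_not_null {n : ℕ} {r s : ℝ} (hr : 0 < r) (hs : 0 < s) (hsn : s < n)
    {X : Set (Fin n → ℝ)} (hX : μH[r] X ≠ 0) :
    ∃ F : X → X → Fin n → ℝ, μH[s] (Set.range fun p : X × X => F p.1 p.2) ≠ 0 := by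
  classical
  obtain ⟨c, hc⟩ := exists_unit_cube hX
  set X' := X ∩ {x | code 0 x = c} with hX'
  suffices h : ∃ F : X' → X' → Fin n → ℝ,
      μH[s] (Set.range fun p : X' × X' => F p.1 p.2) ≠ 0 by
    obtain ⟨F, hF⟩ := h
    refine ⟨fun x y => if h : x.1 ∈ X' ∧ y.1 ∈ X' then F ⟨x.1, h.1⟩ ⟨y.1, h.2⟩ else 0, ?_⟩
    intro h0
    refine hF (measure_mono_null ?_ h0)
    rintro _ ⟨⟨x, y⟩, rfl⟩
    exact ⟨(⟨x.1, x.2.1⟩, ⟨y.1, y.2.1⟩), dif_pos ⟨x.2, y.2⟩⟩
  -- parameters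
  obtain ⟨L, hL⟩ := exists_nat_ge (((n : ℝ) + 2) / (n - s))
  rw [div_le_iff₀ (by linarith)] at hL
  have hsL : 0 ≤ s * L := by positivity
  have hnL : n + 1 ≤ n * L := by
    have : ((n + 1 : ℕ) : ℝ) ≤ ((n * L : ℕ) : ℝ) := by
      push_cast
      nlinarith
    exact_mod_cast this
  obtain ⟨q, hq⟩ := Nat.exists_eq_add_of_le hnL
  have hq' : s * L + 1 ≤ q := by
    have : ((n * L : ℕ) : ℝ) = ((n + 1 + q : ℕ) : ℝ) := by rw [hq]
    push_cast at this
    nlinarith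
  have hL0 : 0 < L := by
    rcases Nat.eq_zero_or_pos L with h | h
    · rw [h] at hnL
      omega
    · exact h
  obtain ⟨C, hC⟩ := exists_nat_ge (1 / r)
  rw [div_le_iff₀ hr] at hC
  have hC0 : 0 < C := by
    rcases Nat.eq_zero_or_pos C with h | h
    · rw [h] at hC
      norm_num at hC
    · exact h
  let M : ℕ → ℕ := fun j => L * j ^ 2
  let m : ℕ → ℕ := fun j => L * (2 * j + 1)
  let t : ℕ → ℕ := fun j => 2 ^ (q * (2 * j + 1))
  let a : ℕ → ℕ := fun j => C * (n * M (j + 1) + j)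
  let b : ℕ → ℕ := fun j => 2 * j + 1
  let K : ℕ → ℕ := fun j => n * a j + 2
  have hM : ∀ j, M (j + 1) = M j + m j := fun j => by
    simp only [M, m]
    ring
  have ha : ∀ j, a j ≤ a (j + 1) := fun j => by
    simp only [a]
    apply Nat.mul_le_mul_left
    rw [hM (j + 1), mul_add]
    omega
  have hb : ∀ j, b j ≤ b (j + 1) := fun j => by
    simp only [b]
    omega
  have haj : ∀ j, j ≤ a j := fun j => by
    simp only [a]
    nlinarith [Nat.zero_le (n * M (j + 1))]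
  have hbj : ∀ j, j ≤ b j := fun j => by
    simp only [b]
    omega
  have hcardD : ∀ j, Fintype.card (Fin n → Fin (2 ^ m j)) = 2 ^ (n * m j) := fun j => by
    rw [Fintype.card_fun, Fintype.card_fin, Fintype.card_fin, ← pow_mul, mul_comm]
  let Inv : ℕ → (X' → X' → Fin n → ℤ) → Prop := fun j π =>
    (∀ x y, π x y ∈ box 0 (M j)) ∧
      ∀ x x' y y' : X', code (a j) x.1 = code (a j) x'.1 → code (b j) y.1 = code (b j) y'.1 →
        π x y = π x' y'
  let Rel : ℕ → (X' → X' → Fin n → ℤ) → (X' → X' → Fin n → ℤ) → Prop := fun j π π' =>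
    ∃ u : X' → X' → Fin n → Fin (2 ^ m j), (∀ x y, π' x y = child (m j) (π x y) (u x y)) ∧
      ∀ S : (Fin n → ℤ) → Finset (Fin n → Fin (2 ^ m j)), (∀ p, (S p).card ≤ t j) →
        ∃ Bad : Finset (Fin n → ℤ), Bad.card ≤ 2 ^ (n * M (j + 1)) ∧
          ∀ x : X', code (a j) x.1 ∉ Bad →
            ∃ ψ : Finset (Fin n → ℤ), ψ.card ≤ K j ∧
              ∀ y : X', code (b j) y.1 ∉ ψ → u x y ∉ S (π x y)
  have hzero : ∀ l, (0 : Fin n → ℤ) ∈ box 0 l := fun l => by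
    rw [box, Fintype.mem_piFinset]
    intro k
    simp
  have hstep : ∀ j π, Inv j π → ∃ π', Inv (j + 1) π' ∧ Rel j π π' := by
    intro j π hπ
    obtain ⟨u, hu1, hu2⟩ := exists_condenser_pt (D := Fin n → Fin (2 ^ m j))
      (fun x : X' => code (a j) x.1) (fun y : X' => code (b j) y.1) (box c (a j)) (box c (b j))
      (box 0 (M j)) (fun x => code_mem_box x.2.2 _) (fun y => code_mem_box y.2.2 _) π hπ.1 hπ.2
      (t j) (K j) (by rw [hcardD]; positivity) ⟨0, hzero _⟩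
      (by
        rw [card_box, hcardD]
        simp only [t, b, m]
        rw [← pow_succ', ← pow_add, ← mul_assoc, hq]
        apply Nat.pow_le_pow_right (by norm_num)
        nlinarith)
      (by
        rw [card_box]
        simp only [K]
        rw [pow_add]
        omega)
    refine ⟨fun x y => child (m j) (π x y) (u x y), ⟨fun x y => ?_, ?_⟩, u, fun x y => rfl, ?_⟩
    · rw [hM]
      exact child_mem_box (hπ.1 x y) _
    · intro x x' y y' hx hy
      have hx' := code_mono (ha j) hx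
      have hy' := code_mono (hb j) hy
      simp only
      rw [hπ.2 x x' y y' hx' hy', hu1 x x' y y' hx' hy']
    · intro S hS
      obtain ⟨Bad, h1, h2⟩ := hu2 S hS
      refine ⟨Bad, ?_, h2⟩
      rwa [hcardD, card_box, ← pow_add, ← mul_add, add_comm, ← hM] at h1
  obtain ⟨N, hN⟩ := dep_choice Inv Rel (fun _ _ => 0) ⟨fun _ _ => hzero _, fun _ _ _ _ _ _ => rfl⟩
    hstep
  choose u hu1 hu2 using fun j => (hN j).2
  have hpt : ∀ x y : X', ∃ z, ∀ j, z ∈ cyl (M j) (N j x y) := fun x y =>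
    exists_point M m hM (fun j => N j x y) (fun j => u j x y) fun j => hu1 j x y
  choose F hF using hpt
  refine ⟨F, fun h0 => ?_⟩
  obtain ⟨S, hS1, hS2⟩ := exists_predictor hs h0 M m t hM
    (fun j => Nat.mul_pos hL0 (by omega)) (fun j => by simp only [t]; positivity)
    (grow_bound (n := n) hq')
  choose Bad hBad1 hBad2 using fun j => hu2 j (S j) (hS1 j)
  obtain ⟨x, hx, hxe⟩ := exists_avoid hr hc a haj Bad
    (summable_first hC (fun j => n * M (j + 1)) (fun j => (Bad j).card) hBad1)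
  have hψ : ∀ j, ∃ ψ : Finset (Fin n → ℤ), ψ.card ≤ K j ∧ (code (a j) x ∉ Bad j →
      ∀ y : X', code (b j) y.1 ∉ ψ → u j ⟨x, hx⟩ y ∉ S j (N j ⟨x, hx⟩ y)) := by
    intro j
    by_cases h : code (a j) x ∈ Bad j
    · exact ⟨∅, by simp, fun h' => (h' h).elim⟩
    · obtain ⟨ψ, h1, h2⟩ := hBad2 j ⟨x, hx⟩ h
      exact ⟨ψ, h1, fun _ => h2⟩
  choose ψ hψ1 hψ2 using hψ
  obtain ⟨y, hy, hye⟩ := exists_avoid hr hc b hbj ψ
    (summable_second hr (n * C * (n * L + 1) + 2) (fun j => (ψ j).card) fun j => by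
      refine (hψ1 j).trans ?_
      simp only [K, a, M]
      have h1 : j ≤ (j + 1) ^ 2 := by nlinarith
      have h2 : 1 ≤ (j + 1) ^ 2 := by nlinarith
      have h3 := Nat.mul_le_mul_left (n * C) h1
      nlinarith)
  have hfreq := hS2 (F ⟨x, hx⟩ ⟨y, hy⟩) ⟨(⟨x, hx⟩, ⟨y, hy⟩), rfl⟩ (fun j => N j ⟨x, hx⟩ ⟨y, hy⟩)
    (fun j => u j ⟨x, hx⟩ ⟨y, hy⟩) (fun j => hu1 j _ _) (hF _ _)
  obtain ⟨j, hj1, hj2, hj3⟩ := (hfreq.and_eventually (hxe.and hye)).exists
  exact hψ2 j hj2 ⟨y, hy⟩ hj3 hj1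

theorem exists_not_null_pi {n : ℕ} {r s : ℝ} (hr : 0 < r) (hs : 0 < s) (hsn : s < n)
    {X : Set (Fin n → ℝ)} (hX : μH[r] X ≠ 0) :
    ∃ Y : Set (Fin n → ℝ), μH[s] Y ≠ 0 ∧ Cardinal.mk Y ≤ Cardinal.mk X := by
  obtain ⟨F, hF⟩ := exists_map_not_null hr hs hsn hX
  refine ⟨_, hF, Cardinal.mk_range_le.trans ?_⟩
  have hinf : X.Infinite := by
    intro hfin
    have := Measure.nullSingletonClass_hausdorff (Fin n → ℝ) hr
    exact hX (hfin.measure_zero _)
  have := hinf.to_subtype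
  rw [Cardinal.mk_prod, Cardinal.lift_id, Cardinal.mul_eq_self (Cardinal.aleph0_le_mk X)]

end Pool.Agent.Lib.MP_eebbd0_lc
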